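import Mathlib

/-!
Random subsets of the primes: the deterministic part.
-/

set_option autoImplicit false

namespace Pool.Agent.Q110.RS

open Filter Finset
open scoped ENNReal Topology

/-- `limsup (s_{n+1} - s_n) / g(s_n)` over the elements `s_0 < s_1 < ...` of `S` -/
noncomputable def gapLim (g : ℕ → ℝ) (S : Set ℕ) : ℝ≥0∞ :=
  limsup (fun n : ℕ => ENNReal.ofReal
    (((Nat.nth (· ∈ S) (n + 1) : ℝ) - Nat.nth (· ∈ S) n) / g (Nat.nth (· ∈ S) n))) atTop

/-- the window `(n, n + C g(n)]` contains no element of `S` -/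
def Emp (g : ℕ → ℝ) (C : ℝ) (S : Set ℕ) (n : ℕ) : Prop :=
  ∀ m ∈ Ioc n (n + ⌊C * g n⌋₊), m ∉ S

theorem tendsto_nth {S : Set ℕ} (hS : S.Infinite) : Tendsto (Nat.nth (· ∈ S)) atTop atTop :=
  (Nat.nth_strictMono hS).tendsto_atTop

theorem exists_emp {g : ℕ → ℝ} {C : ℝ} {S : Set ℕ} (hS : S.Infinite) (hg0 : ∀ n, 0 ≤ g n) (hC : 0 ≤ C)
    (h : ENNReal.ofReal C < gapLim g S) : ∃ᶠ n in atTop, Emp g C S n := by
  have h1 := frequently_lt_of_lt_limsup (by isBoundedDefault) h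
  refine (tendsto_nth hS).frequently (h1.mono ?_)
  intro n hn m hm hmS
  rw [Finset.mem_Ioc] at hm
  set s := Nat.nth (· ∈ S) n with hs
  have h2 : C < ((Nat.nth (· ∈ S) (n + 1) : ℝ) - s) / g s := by
    by_contra hcon
    push Not at hcon
    exact absurd (ENNReal.ofReal_le_ofReal hcon) (not_le.2 hn)
  have hgs : 0 < g s := by
    rcases (hg0 s).lt_or_eq with h3 | h3
    · exact h3
    · rw [← h3, div_zero] at h2
      linarith
  rw [lt_div_iff₀ hgs] at h2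
  have h4 : Nat.nth (· ∈ S) (n + 1) ≤ m := by
    by_contra hlt
    push Not at hlt
    have h5 := Nat.le_nth_of_lt_nth_succ (p := (· ∈ S)) hlt hmS
    omega
  have h8 : (m : ℝ) ≤ s + C * g s := by
    have h9 : (m : ℝ) ≤ s + ⌊C * g s⌋₊ := by exact_mod_cast hm.2
    have := Nat.floor_le (mul_nonneg hC hgs.le)
    linarith
  have h10 : (Nat.nth (· ∈ S) (n + 1) : ℝ) ≤ m := by exact_mod_cast h4
  linarith

theorem tendsto_count {S : Set ℕ} [DecidablePred (· ∈ S)] (hS : S.Infinite) :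
    Tendsto (Nat.count (· ∈ S)) atTop atTop := by
  rw [tendsto_atTop_atTop]
  intro b
  refine ⟨Nat.nth (· ∈ S) b, fun a ha => ?_⟩
  have hS' : (Set.ofPred (fun x => x ∈ S)).Infinite := hS
  have h1 := Nat.count_monotone (· ∈ S) ha
  rwa [Nat.count_nth_of_infinite hS'] at h1

theorem le_gapLim {g : ℕ → ℝ} {C : ℝ} {S : Set ℕ} (hS : S.Infinite) (hg : Monotone g)
    (hg1 : ∀ᶠ n in atTop, 0 < g n) (hC : 0 ≤ C)
    (h : ∃ᶠ n in atTop, Emp g C S n) : ENNReal.ofReal C ≤ gapLim g S := by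
  classical
  refine le_limsup_of_frequently_le ?_ (by isBoundedDefault)
  have hT : Tendsto (fun n : ℕ => Nat.count (· ∈ S) (n + 1) - 1) atTop atTop :=
    (tendsto_sub_atTop_nat 1).comp ((tendsto_count hS).comp (tendsto_add_atTop_nat 1))
  have hT1 : ∀ᶠ n : ℕ in atTop, 1 ≤ Nat.count (· ∈ S) (n + 1) :=
    ((tendsto_count hS).comp (tendsto_add_atTop_nat 1)).eventually_ge_atTop 1
  have hT2 : ∀ᶠ n : ℕ in atTop, 0 < g (Nat.nth (· ∈ S) (Nat.count (· ∈ S) (n + 1) - 1)) :=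
    (((tendsto_nth hS).comp hT).eventually hg1)
  refine hT.frequently ((h.and_eventually (hT1.and hT2)).mono ?_)
  rintro n ⟨hE, h1, h2⟩
  set k := Nat.count (· ∈ S) (n + 1) - 1 with hk
  have hk1 : k + 1 = Nat.count (· ∈ S) (n + 1) := by omega
  have h3 : Nat.nth (· ∈ S) k < n + 1 := Nat.nth_lt_of_lt_count (by omega)
  have hS' : (Set.ofPred (fun x => x ∈ S)).Infinite := hS
  have h4 : n + 1 ≤ Nat.nth (· ∈ S) (k + 1) := by
    rw [hk1]
    exact Nat.le_nth_count hS' (n + 1)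
  have h5 : n + ⌊C * g n⌋₊ < Nat.nth (· ∈ S) (k + 1) := by
    by_contra hcon
    push Not at hcon
    exact hE _ (Finset.mem_Ioc.2 ⟨by omega, hcon⟩) (Nat.nth_mem_of_infinite hS (k + 1))
  have h6 : (n : ℝ) + C * g n < Nat.nth (· ∈ S) (k + 1) := by
    have h7 := Nat.lt_floor_add_one (C * g n)
    have h8 : (n : ℝ) + ⌊C * g n⌋₊ + 1 ≤ Nat.nth (· ∈ S) (k + 1) := by exact_mod_cast h5
    linarith
  have h9 : (Nat.nth (· ∈ S) k : ℝ) ≤ n := by exact_mod_cast (by omega : Nat.nth (· ∈ S) k ≤ n)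
  apply ENNReal.ofReal_le_ofReal
  rw [le_div_iff₀ h2]
  have h10 : g (Nat.nth (· ∈ S) k) ≤ g n := hg (by omega)
  have h11 := mul_le_mul_of_nonneg_left h10 hC
  linarith

end Pool.Agent.Q110.RS
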