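import Mathlib
import Pool.Agent.Q110.RS.Det

/-!
Random subsets of the primes: independence and the two Borel-Cantelli lemmas for disjoint windows.
-/

set_option autoImplicit false

namespace Pool.Agent.Q110.RS

open Filter Finset MeasureTheory ProbabilityTheory
open scoped ENNReal Topology

/-- `S ω` is a random set of natural numbers: the events `m ∈ S ω` are independent and have the
probabilities `φ m`. -/
structure RandomSubset {Ω : Type} [MeasurableSpace Ω] (μ : Measure Ω) (S : Ω → Set ℕ) (φ : ℕ → ℝ) :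
    Prop where
  meas : ∀ m, MeasurableSet {ω | m ∈ S ω}
  indep : iIndepSet (fun m => {ω | m ∈ S ω}) μ
  prob : ∀ m, μ {ω | m ∈ S ω} = ENNReal.ofReal (φ m)

variable {Ω : Type} [MeasurableSpace Ω] {μ : Measure Ω} {S : Ω → Set ℕ} {φ : ℕ → ℝ}

/-- the probability that a finite set of numbers is avoided -/
theorem avoid (h : RandomSubset μ S φ) (h0 : ∀ m, 0 ≤ φ m) (h1 : ∀ m, φ m ≤ 1) (F : Finset ℕ) :
    μ {ω | ∀ m ∈ F, m ∉ S ω} = ENNReal.ofReal (∏ m ∈ F, (1 - φ m)) := by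
  have hP : IsProbabilityMeasure μ := h.indep.isProbabilityMeasure
  have h2 : {ω | ∀ m ∈ F, m ∉ S ω} = ⋂ m ∈ F, ({ω | m ∈ S ω})ᶜ := by
    ext ω
    simp
  have h3 : iIndep (fun m => MeasurableSpace.generateFrom {({ω | m ∈ S ω} : Set Ω)}) μ :=
    (iIndepSet_iff_iIndep _ μ).1 h.indep
  have h4 : μ (⋂ m ∈ F, ({ω | m ∈ S ω})ᶜ) = ∏ m ∈ F, μ ({ω | m ∈ S ω})ᶜ :=
    h3.meas_biInter (fun m _ => (MeasurableSpace.measurableSet_generateFrom (Set.mem_singleton _)).compl)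
  rw [h2, h4, ENNReal.ofReal_prod_of_nonneg (fun m _ => by linarith [h1 m])]
  refine Finset.prod_congr rfl fun m _ => ?_
  rw [prob_compl_eq_one_sub (h.meas m), h.prob m, ← ENNReal.ofReal_one, ENNReal.ofReal_sub _ (h0 m)]

theorem meas_avoid (h : RandomSubset μ S φ) (F : Finset ℕ) :
    MeasurableSet {ω | ∀ m ∈ F, m ∉ S ω} := by
  have h2 : {ω | ∀ m ∈ F, m ∉ S ω} = ⋂ m ∈ F, ({ω | m ∈ S ω})ᶜ := by
    ext ω
    simp
  rw [h2]
  exact Finset.measurableSet_biInter F fun m _ => (h.meas m).compl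

theorem indep_windows (h : RandomSubset μ S φ) (h0 : ∀ m, 0 ≤ φ m) (h1 : ∀ m, φ m ≤ 1) (W : ℕ → Finset ℕ)
    (hW : ∀ i j, i ≠ j → Disjoint (W i) (W j)) :
    iIndepSet (fun i => {ω | ∀ m ∈ W i, m ∉ S ω}) μ := by
  classical
  rw [iIndepSet_iff_meas_biInter (fun i => meas_avoid h (W i))]
  intro t
  have h2 : (⋂ i ∈ t, {ω | ∀ m ∈ W i, m ∉ S ω}) = {ω | ∀ m ∈ t.biUnion W, m ∉ S ω} := by
    ext ω
    simp only [Set.mem_iInter, Set.mem_setOf_eq, Finset.mem_biUnion]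
    constructor
    · rintro h3 m ⟨i, hi, hm⟩
      exact h3 i hi m hm
    · intro h3 i hi m hm
      exact h3 m ⟨i, hi, hm⟩
  rw [h2, avoid h h0 h1, Finset.prod_biUnion (fun i _ j _ hij => hW i j hij),
    ENNReal.ofReal_prod_of_nonneg (fun i _ => Finset.prod_nonneg fun m _ => by linarith [h1 m])]
  exact Finset.prod_congr rfl fun i _ => (avoid h h0 h1 (W i)).symm

/-- second Borel-Cantelli lemma for disjoint windows -/
theorem bc2 (h : RandomSubset μ S φ) (h0 : ∀ m, 0 ≤ φ m) (h1 : ∀ m, φ m ≤ 1) (W : ℕ → Finset ℕ)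
    (hW : ∀ i j, i ≠ j → Disjoint (W i) (W j))
    (hs : ∑' i, ENNReal.ofReal (∏ m ∈ W i, (1 - φ m)) = ⊤) :
    ∀ᵐ ω ∂μ, ∃ᶠ i in atTop, ∀ m ∈ W i, m ∉ S ω := by
  have hP : IsProbabilityMeasure μ := h.indep.isProbabilityMeasure
  have h2 := measure_limsup_eq_one (fun i => meas_avoid h (W i)) (indep_windows h h0 h1 W hW) (by
    rw [← hs]
    exact tsum_congr fun i => avoid h h0 h1 (W i))
  have h3 : MeasurableSet (limsup (fun i => {ω | ∀ m ∈ W i, m ∉ S ω}) atTop) :=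
    MeasurableSet.measurableSet_limsup fun i => meas_avoid h (W i)
  have h4 := (prob_compl_eq_zero_iff h3).2 h2
  rw [measure_eq_zero_iff_ae_notMem] at h4
  filter_upwards [h4] with ω hω
  have h5 : ω ∈ limsup (fun i => {ω | ∀ m ∈ W i, m ∉ S ω}) atTop := by
    by_contra hcon
    exact hω hcon
  rw [mem_limsup_iff_frequently_mem] at h5
  exact h5

/-- first Borel-Cantelli lemma -/
theorem bc1 (h : RandomSubset μ S φ) (h0 : ∀ m, 0 ≤ φ m) (h1 : ∀ m, φ m ≤ 1) (W : ℕ → Finset ℕ)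
    (hs : ∑' i, ENNReal.ofReal (∏ m ∈ W i, (1 - φ m)) ≠ ⊤) :
    ∀ᵐ ω ∂μ, ∀ᶠ i in atTop, ¬ ∀ m ∈ W i, m ∉ S ω := by
  have h2 := ae_eventually_notMem (μ := μ) (s := fun i => {ω | ∀ m ∈ W i, m ∉ S ω}) (by
    have : ∑' i, μ {ω | ∀ m ∈ W i, m ∉ S ω} = ∑' i, ENNReal.ofReal (∏ m ∈ W i, (1 - φ m)) :=
      tsum_congr fun i => avoid h h0 h1 (W i)
    rw [this]
    exact hs)
  exact h2

theorem ae_infinite (h : RandomSubset μ S φ) (hs : ∑' m, ENNReal.ofReal (φ m) = ⊤) :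
    ∀ᵐ ω ∂μ, (S ω).Infinite := by
  have hP : IsProbabilityMeasure μ := h.indep.isProbabilityMeasure
  have h2 := measure_limsup_eq_one h.meas h.indep (by
    rw [← hs]
    exact tsum_congr fun i => h.prob i)
  have h3 : MeasurableSet (limsup (fun m => {ω | m ∈ S ω}) atTop) :=
    MeasurableSet.measurableSet_limsup h.meas
  have h4 := (prob_compl_eq_zero_iff h3).2 h2
  rw [measure_eq_zero_iff_ae_notMem] at h4
  filter_upwards [h4] with ω hω
  have h5 : ω ∈ limsup (fun m => {ω | m ∈ S ω}) atTop := by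
    by_contra hcon
    exact hω hcon
  rw [mem_limsup_iff_frequently_mem] at h5
  exact Nat.frequently_atTop_iff_infinite.1 h5

end Pool.Agent.Q110.RS
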