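import Mathlib
import Pool.Agent.Q110.RS.Prob

/-!
Random subsets of the primes: the formula for the almost sure value of the limsup of the gaps.
-/

set_option autoImplicit false

namespace Pool.Agent.Q110.RS

open Filter Finset MeasureTheory ProbabilityTheory
open scoped ENNReal Topology

structure Scale (g : ℕ → ℝ) : Prop where
  mono : Monotone g
  nonneg : ∀ n, 0 ≤ g n
  top : Tendsto g atTop atTop
  slow : ∀ K ε : ℝ, 0 < K → 0 < ε → ∀ᶠ n : ℕ in atTop, g (n + ⌊K * g n⌋₊) ≤ (1 + ε) * g n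

/-- the probability that the window `(n, n + C g(n)]` is avoided -/
noncomputable def Q (g φ : ℕ → ℝ) (C : ℝ) (n : ℕ) : ℝ := ∏ m ∈ Ioc n (n + ⌊C * g n⌋₊), (1 - φ m)

theorem reg {g : ℕ → ℝ} (hg : Scale g) {C1 C2 : ℝ} (h1 : 0 ≤ C1) (h2 : C1 < C2) :
    ∃ η : ℝ, 0 < η ∧ ∀ η' : ℝ, 0 < η' → η' ≤ η → ∀ᶠ a : ℕ in atTop, ∀ b : ℕ, a ≤ b →
      (b : ℝ) ≤ a + η' * g a + 1 → (b : ℝ) + C1 * g b ≤ a + C2 * g a := by
  have hd : 0 < C2 - C1 := by linarith
  refine ⟨(C2 - C1) / 4, by positivity, fun η' hη' hη'' => ?_⟩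
  have hε : 0 < (C2 - C1) / (4 * (C1 + 1)) := by positivity
  filter_upwards [hg.slow (η' + 1) _ (by positivity) hε, hg.top.eventually_ge_atTop 1,
    hg.top.eventually_ge_atTop (4 / (C2 - C1))] with a e1 e2 e3
  intro b hab hb
  have h3 : b ≤ a + ⌊(η' + 1) * g a⌋₊ := by
    have h4 : b - a ≤ ⌊(η' + 1) * g a⌋₊ := by
      apply Nat.le_floor
      rw [Nat.cast_sub hab]
      linarith
    omega
  have h5 := (hg.mono h3).trans e1
  have h6 : C1 * g b ≤ C1 * ((1 + (C2 - C1) / (4 * (C1 + 1))) * g a) := mul_le_mul_of_nonneg_left h5 h1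
  have h7 : C1 * ((C2 - C1) / (4 * (C1 + 1))) ≤ (C2 - C1) / 4 := by
    rw [mul_div_assoc', div_le_div_iff₀ (by positivity) (by norm_num)]
    nlinarith
  have h8 : 1 ≤ (C2 - C1) / 4 * g a := by
    rw [div_le_iff₀ hd] at e3
    linarith
  have h9 : η' * g a ≤ (C2 - C1) / 4 * g a := mul_le_mul_of_nonneg_right hη'' (hg.nonneg a)
  have h10 : C1 * ((C2 - C1) / (4 * (C1 + 1))) * g a ≤ (C2 - C1) / 4 * g a :=
    mul_le_mul_of_nonneg_right h7 (hg.nonneg a)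
  nlinarith

theorem window_sub {g : ℕ → ℝ} {C1 C2 : ℝ} {a b : ℕ} (hg : ∀ n, 0 ≤ g n) (hC : 0 ≤ C1) (hab : a ≤ b)
    (h : (b : ℝ) + C1 * g b ≤ a + C2 * g a) :
    Ioc b (b + ⌊C1 * g b⌋₊) ⊆ Ioc a (a + ⌊C2 * g a⌋₊) := by
  apply Finset.Ioc_subset_Ioc hab
  have h1 : b - a + ⌊C1 * g b⌋₊ ≤ ⌊C2 * g a⌋₊ := by
    apply Nat.le_floor
    have h2 := Nat.floor_le (mul_nonneg hC (hg b))
    push_cast
    rw [Nat.cast_sub hab]
    linarith
  omega

theorem Q_mono {g φ : ℕ → ℝ} {C1 C2 : ℝ} {a b : ℕ} (h0 : ∀ m, 0 ≤ φ m) (h1 : ∀ m, φ m ≤ 1)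
    (h : Ioc b (b + ⌊C1 * g b⌋₊) ⊆ Ioc a (a + ⌊C2 * g a⌋₊)) : Q g φ C2 a ≤ Q g φ C1 b := by
  unfold Q
  rw [← Finset.prod_sdiff h]
  have h2 : ∏ m ∈ Ioc a (a + ⌊C2 * g a⌋₊) \ Ioc b (b + ⌊C1 * g b⌋₊), (1 - φ m) ≤ 1 :=
    Finset.prod_le_one (fun m _ => by linarith [h1 m]) (fun m _ => by linarith [h0 m])
  have h3 : 0 ≤ ∏ m ∈ Ioc b (b + ⌊C1 * g b⌋₊), (1 - φ m) :=
    Finset.prod_nonneg fun m _ => by linarith [h1 m]
  nlinarith

theorem Q_nonneg {g φ : ℕ → ℝ} (h1 : ∀ m, φ m ≤ 1) (C : ℝ) (n : ℕ) : 0 ≤ Q g φ C n :=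
  Finset.prod_nonneg fun m _ => by linarith [h1 m]

/-- the grid -/
noncomputable def grid (g : ℕ → ℝ) (η : ℝ) (N : ℕ) : ℕ → ℕ
  | 0 => N
  | j + 1 => grid g η N j + ⌊η * g (grid g η N j)⌋₊ + 1

theorem grid_lt (g : ℕ → ℝ) (η : ℝ) (N j : ℕ) : grid g η N j < grid g η N (j + 1) := by
  rw [grid]
  omega

theorem grid_mono (g : ℕ → ℝ) (η : ℝ) (N : ℕ) : StrictMono (grid g η N) :=
  strictMono_nat_of_lt_succ (grid_lt g η N)

theorem grid_ge (g : ℕ → ℝ) (η : ℝ) (N j : ℕ) : N + j ≤ grid g η N j := by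
  induction j with
  | zero => exact le_rfl
  | succ j ih =>
    have := grid_lt g η N j
    omega

theorem grid_step_le {g : ℕ → ℝ} (hg : ∀ n, 0 ≤ g n) {η : ℝ} (hη : 0 < η) (N j : ℕ) :
    (grid g η N (j + 1) : ℝ) ≤ grid g η N j + η * g (grid g η N j) + 1 := by
  rw [grid]
  push_cast
  have := Nat.floor_le (mul_nonneg hη.le (hg (grid g η N j)))
  linarith

theorem grid_step_gt (g : ℕ → ℝ) (η : ℝ) (N j : ℕ) :
    (grid g η N j : ℝ) + η * g (grid g η N j) < grid g η N (j + 1) := by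
  rw [grid]
  push_cast
  have := Nat.lt_floor_add_one (η * g (grid g η N j))
  linarith

theorem sum_blocks (f : ℕ → ℝ) (b : ℕ → ℕ) (hb : Monotone b) (J : ℕ) :
    ∑ j ∈ range J, ∑ n ∈ Ico (b j) (b (j + 1)), f n = ∑ n ∈ Ico (b 0) (b J), f n := by
  induction J with
  | zero => simp
  | succ J ih =>
    rw [Finset.sum_range_succ, ih, Finset.sum_Ico_consecutive f (hb (Nat.zero_le J)) (hb (Nat.le_succ J))]

theorem exists_block {b : ℕ → ℕ} (hb : StrictMono b) {n : ℕ} (hn : b 0 < n) :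
    ∃ j, b j < n ∧ n ≤ b (j + 1) := by
  classical
  have hex : ∃ j, n ≤ b j := ⟨n, hb.le_apply⟩
  have h1 := Nat.find_spec hex
  have h2 : Nat.find hex ≠ 0 := by
    intro h
    rw [h] at h1
    omega
  obtain ⟨j, hj⟩ := Nat.exists_eq_succ_of_ne_zero h2
  refine ⟨j, ?_, ?_⟩
  · have h3 := Nat.find_min hex (m := j) (by omega)
    omega
  · rw [hj] at h1
    exact h1

/-- upper bound -/
theorem upper {Ω : Type} [MeasurableSpace Ω] {μ : Measure Ω} {S : Ω → Set ℕ} {φ g : ℕ → ℝ} (hg : Scale g)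
    (h : RandomSubset μ S φ) (h0 : ∀ m, 0 ≤ φ m) (h1 : ∀ m, φ m ≤ 1) {C C' : ℝ} (hC : 0 ≤ C) (hCC : C < C')
    (hs : Summable fun n => Q g φ C n / g n) :
    ∀ᵐ ω ∂μ, ∀ᶠ n in atTop, ¬ Emp g C' (S ω) n := by
  obtain ⟨D, hD1, hD2⟩ : ∃ D, C < D ∧ D < C' := exists_between hCC
  obtain ⟨η1, hη1, r1⟩ := reg hg hC hD1
  obtain ⟨η2, hη2, r2⟩ := reg hg (hC.trans hD1.le) hD2
  obtain ⟨η, hηd⟩ : ∃ η, η = min η1 η2 := ⟨_, rfl⟩
  have hη : 0 < η := by rw [hηd]; exact lt_min hη1 hη2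
  obtain ⟨N, hN⟩ := eventually_atTop.1 ((r1 η hη (by rw [hηd]; exact min_le_left _ _)).and
    ((r2 η hη (by rw [hηd]; exact min_le_right _ _)).and ((hg.slow (η + 1) 1 (by positivity) one_pos).and
      (hg.top.eventually_ge_atTop 1))))
  set b := grid g η N with hb
  have hbN : ∀ j, N ≤ b j := fun j => (Nat.le_add_right N j).trans (grid_ge g η N j)
  -- comparison in one block
  have hblock : ∀ j, η / 2 * Q g φ D (b j) ≤ ∑ n ∈ Ico (b j) (b (j + 1)), Q g φ C n / g n := by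
    intro j
    obtain ⟨e1, e2, e3, e4⟩ := hN (b j) (hbN j)
    have hgb : 0 < g (b j) := by linarith
    have h2 : ∀ n ∈ Ico (b j) (b (j + 1)), Q g φ D (b j) / (2 * g (b j)) ≤ Q g φ C n / g n := by
      intro n hn
      rw [Finset.mem_Ico] at hn
      have h3 : (n : ℝ) ≤ b j + η * g (b j) + 1 := by
        have h4 : (n : ℝ) ≤ b (j + 1) := by exact_mod_cast hn.2.le
        exact h4.trans (grid_step_le hg.nonneg hη N j)
      have h5 := Q_mono h0 h1 (window_sub hg.nonneg hC hn.1 (e1 n hn.1 h3))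
      have h6 : g n ≤ 2 * g (b j) := by
        have h7 : n ≤ b j + ⌊(η + 1) * g (b j)⌋₊ := by
          have h8 : n - b j ≤ ⌊(η + 1) * g (b j)⌋₊ := by
            apply Nat.le_floor
            rw [Nat.cast_sub hn.1]
            linarith
          omega
        have h9 := (hg.mono h7).trans e3
        linarith
      have h10 : 0 < g n := lt_of_lt_of_le hgb (hg.mono hn.1)
      exact div_le_div₀ (Q_nonneg h1 C n) h5 h10 h6
    have h11 := Finset.card_nsmul_le_sum _ _ _ h2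
    refine le_trans ?_ h11
    rw [Nat.card_Ico, nsmul_eq_mul, Nat.cast_sub (grid_lt g η N j).le]
    have h12 := grid_step_gt g η N j
    have h13 : η * g (b j) ≤ (b (j + 1) : ℝ) - b j := by linarith
    have h14 : 0 ≤ Q g φ D (b j) / (2 * g (b j)) := div_nonneg (Q_nonneg h1 D _) (by positivity)
    calc η / 2 * Q g φ D (b j) = η * g (b j) * (Q g φ D (b j) / (2 * g (b j))) := by
          field_simp
      _ ≤ _ := mul_le_mul_of_nonneg_right h13 h14
  have hterm : ∀ n, 0 ≤ Q g φ C n / g n := fun n => div_nonneg (Q_nonneg h1 C n) (hg.nonneg n)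
  have hsum : Summable fun j => Q g φ D (b j) := by
    apply summable_of_sum_range_le (c := 2 / η * ∑' n, Q g φ C n / g n) (fun j => Q_nonneg h1 D (b j))
    intro J
    have h2 : η / 2 * ∑ j ∈ range J, Q g φ D (b j) ≤ ∑' n, Q g φ C n / g n := by
      rw [Finset.mul_sum]
      refine (Finset.sum_le_sum fun j _ => hblock j).trans ?_
      rw [sum_blocks _ b (grid_mono g η N).monotone J]
      exact hs.sum_le_tsum _ fun n _ => hterm n
    calc ∑ j ∈ range J, Q g φ D (b j) = 2 / η * (η / 2 * ∑ j ∈ range J, Q g φ D (b j)) := by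
          field_simp
      _ ≤ _ := mul_le_mul_of_nonneg_left h2 (by positivity)
  have hne : ∑' j, ENNReal.ofReal (∏ m ∈ Ioc (b j) (b j + ⌊D * g (b j)⌋₊), (1 - φ m)) ≠ ⊤ := by
    have := hsum.tsum_ofReal_ne_top
    exact this
  filter_upwards [bc1 h h0 h1 _ hne] with ω hω
  obtain ⟨J, hJ⟩ := eventually_atTop.1 hω
  filter_upwards [eventually_gt_atTop (b (J + 1))] with n hn hE
  obtain ⟨j, hj1, hj2⟩ := exists_block (grid_mono g η N)
    (lt_of_le_of_lt ((grid_mono g η N).monotone (Nat.zero_le (J + 1))) hn)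
  have hjJ : J ≤ j + 1 := by
    by_contra hcon
    push Not at hcon
    have : b (j + 1) ≤ b (J + 1) := (grid_mono g η N).monotone (by omega)
    change n ≤ b (j + 1) at hj2
    omega
  refine hJ (j + 1) hjJ fun m hm => hE m ?_
  obtain ⟨-, e2, -, -⟩ := hN n (by
    have := hbN (J + 1)
    omega)
  refine window_sub hg.nonneg (hC.trans hD1.le) hj2 (e2 _ hj2 ?_) hm
  have h3 := grid_step_le hg.nonneg hη N j
  have h4 : ((b j : ℕ) : ℝ) ≤ n := by exact_mod_cast hj1.le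
  have h5 : η * g (b j) ≤ η * g n := mul_le_mul_of_nonneg_left (hg.mono hj1.le) hη.le
  change ((b (j + 1) : ℕ) : ℝ) ≤ _
  change ((b (j + 1) : ℕ) : ℝ) ≤ (b j : ℝ) + η * g (b j) + 1 at h3
  linarith

end Pool.Agent.Q110.RS
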