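import Mathlib
import Pool.Agent.Q110.RS.Formula

/-!
Random subsets of the primes: the lower bound and the formula.
-/

set_option autoImplicit false

namespace Pool.Agent.Q110.RS

open Filter Finset MeasureTheory ProbabilityTheory
open scoped ENNReal Topology

theorem tsum_classes (R : ℕ) [NeZero R] (f : ℕ → ℝ≥0∞) :
    ∑' n, f n = ∑ r : Fin R, ∑' i : ℕ, f (i * R + r) := by
  rw [← (Nat.divModEquiv R).symm.tsum_eq f, ENNReal.tsum_prod', ENNReal.tsum_comm, tsum_fintype]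
  rfl

/-- lower bound -/
theorem lower {Ω : Type} [MeasurableSpace Ω] {μ : Measure Ω} {S : Ω → Set ℕ} {φ g : ℕ → ℝ} (hg : Scale g)
    (h : RandomSubset μ S φ) (h0 : ∀ m, 0 ≤ φ m) (h1 : ∀ m, φ m ≤ 1) {C C' : ℝ} (hC : 0 ≤ C) (hCC : C < C')
    (hs : ¬ Summable fun n => Q g φ C' n / g n) :
    ∀ᵐ ω ∂μ, ∃ᶠ n in atTop, Emp g C (S ω) n := by
  obtain ⟨η, hη, r1⟩ := reg hg hC hCC
  obtain ⟨N, hN⟩ := eventually_atTop.1 ((r1 η hη le_rfl).and (hg.top.eventually_ge_atTop 1))
  set b := grid g η N with hb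
  have hbN : ∀ j, N ≤ b j := fun j => (Nat.le_add_right N j).trans (grid_ge g η N j)
  have hmono := grid_mono g η N
  have hterm : ∀ n, 0 ≤ Q g φ C' n / g n := fun n => div_nonneg (Q_nonneg h1 C' n) (hg.nonneg n)
  have hblock : ∀ j, ∑ n ∈ Ico (b j) (b (j + 1)), Q g φ C' n / g n ≤ (η + 1) * Q g φ C (b (j + 1)) := by
    intro j
    obtain ⟨-, e4⟩ := hN (b j) (hbN j)
    have hgb : 0 < g (b j) := by linarith
    have h2 : ∀ n ∈ Ico (b j) (b (j + 1)), Q g φ C' n / g n ≤ Q g φ C (b (j + 1)) / g (b j) := by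
      intro n hn
      rw [Finset.mem_Ico] at hn
      obtain ⟨e1, -⟩ := hN n ((hbN j).trans hn.1)
      have h3 : ((b (j + 1) : ℕ) : ℝ) ≤ n + η * g n + 1 := by
        have h4 := grid_step_le hg.nonneg hη N j
        change ((b (j + 1) : ℕ) : ℝ) ≤ (b j : ℝ) + η * g (b j) + 1 at h4
        have h5 : ((b j : ℕ) : ℝ) ≤ n := by exact_mod_cast hn.1
        have h6 : η * g (b j) ≤ η * g n := mul_le_mul_of_nonneg_left (hg.mono hn.1) hη.le
        linarith
      have h5 := Q_mono h0 h1 (window_sub hg.nonneg hC hn.2.le (e1 _ hn.2.le h3))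
      exact div_le_div₀ (Q_nonneg h1 C _) h5 hgb (hg.mono hn.1)
    refine (Finset.sum_le_card_nsmul _ _ _ h2).trans ?_
    rw [Nat.card_Ico, nsmul_eq_mul, Nat.cast_sub (grid_lt g η N j).le]
    have h12 := grid_step_le hg.nonneg hη N j
    have h13 : (b (j + 1) : ℝ) - b j ≤ (η + 1) * g (b j) := by
      change ((b (j + 1) : ℕ) : ℝ) ≤ (b j : ℝ) + η * g (b j) + 1 at h12
      linarith
    have h14 : 0 ≤ Q g φ C (b (j + 1)) / g (b j) := div_nonneg (Q_nonneg h1 C _) hgb.le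
    calc ((b (j + 1) : ℝ) - b j) * (Q g φ C (b (j + 1)) / g (b j)) ≤
          (η + 1) * g (b j) * (Q g φ C (b (j + 1)) / g (b j)) := mul_le_mul_of_nonneg_right h13 h14
      _ = (η + 1) * Q g φ C (b (j + 1)) := by field_simp
  -- divergence
  have hdiv : ¬ Summable fun j => Q g φ C (b (j + 1)) := by
    intro hcon
    apply hs
    rw [← summable_nat_add_iff N]
    apply summable_of_sum_range_le (c := (η + 1) * ∑' j, Q g φ C (b (j + 1))) (fun n => hterm (n + N))
    intro M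
    have h2 : ∑ n ∈ range M, Q g φ C' (n + N) / g (n + N) = ∑ n ∈ Ico N (N + M), Q g φ C' n / g n := by
      rw [Finset.sum_Ico_eq_sum_range]
      simp only [Nat.add_sub_cancel_left]
      exact Finset.sum_congr rfl fun n _ => by rw [add_comm]
    have h3 : ∑ n ∈ Ico N (N + M), Q g φ C' n / g n ≤ ∑ n ∈ Ico (b 0) (b M), Q g φ C' n / g n := by
      apply Finset.sum_le_sum_of_subset_of_nonneg
      · exact Finset.Ico_subset_Ico le_rfl (grid_ge g η N M)
      · intro n _ _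
        exact hterm n
    rw [h2]
    refine h3.trans ?_
    rw [← sum_blocks _ b hmono.monotone M]
    refine (Finset.sum_le_sum fun j _ => hblock j).trans ?_
    rw [← Finset.mul_sum]
    exact mul_le_mul_of_nonneg_left (hcon.sum_le_tsum _ fun j _ => Q_nonneg h1 C _) (by positivity)
  have htop : ∑' j, ENNReal.ofReal (Q g φ C (b (j + 1))) = ⊤ := by
    by_contra hcon
    apply hdiv
    have h2 := ENNReal.summable_toReal hcon
    refine h2.congr fun j => ?_
    rw [ENNReal.toReal_ofReal (Q_nonneg h1 C _)]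
  -- classes
  obtain ⟨R, hR⟩ : ∃ R : ℕ, C / η ≤ R := exists_nat_ge _
  have hRne : NeZero (R + 1) := ⟨Nat.succ_ne_zero R⟩
  rw [tsum_classes (R + 1)] at htop
  obtain ⟨r, -, hr⟩ := ENNReal.sum_eq_top.1 htop
  -- disjoint windows
  have hstep : ∀ k t : ℕ, (b k : ℝ) + t * (η * g (b k)) ≤ b (k + t) := by
    intro k t
    induction t with
    | zero => simp
    | succ t ih =>
      have h2 := grid_step_gt g η N (k + t)
      change ((b (k + t) : ℕ) : ℝ) + η * g (b (k + t)) < b (k + t + 1) at h2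
      have h3 : η * g (b k) ≤ η * g (b (k + t)) :=
        mul_le_mul_of_nonneg_left (hg.mono (hmono.monotone (Nat.le_add_right k t))) hη.le
      rw [← add_assoc]
      push_cast
      linarith
  have hend : ∀ k k' : ℕ, k + (R + 1) ≤ k' → b k + ⌊C * g (b k)⌋₊ ≤ b k' := by
    intro k k' hk
    have h2 := hstep k (R + 1)
    have h3 : C * g (b k) ≤ (R + 1 : ℕ) * (η * g (b k)) := by
      rw [← mul_assoc]
      apply mul_le_mul_of_nonneg_right _ (hg.nonneg _)
      rw [div_le_iff₀ hη] at hR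
      push_cast
      nlinarith
    have h4 : ((b k + ⌊C * g (b k)⌋₊ : ℕ) : ℝ) ≤ ((b (k + (R + 1)) : ℕ) : ℝ) := by
      push_cast
      have := Nat.floor_le (mul_nonneg hC (hg.nonneg (b k)))
      linarith
    have h5 : b k + ⌊C * g (b k)⌋₊ ≤ b (k + (R + 1)) := by exact_mod_cast h4
    exact h5.trans (hmono.monotone hk)
  set ix : ℕ → ℕ := fun i => i * (R + 1) + r + 1 with hix
  have hdisj : ∀ i j, i ≠ j → Disjoint (Ioc (b (ix i)) (b (ix i) + ⌊C * g (b (ix i))⌋₊))
      (Ioc (b (ix j)) (b (ix j) + ⌊C * g (b (ix j))⌋₊)) := by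
    have key : ∀ i j, i < j → Disjoint (Ioc (b (ix i)) (b (ix i) + ⌊C * g (b (ix i))⌋₊))
      (Ioc (b (ix j)) (b (ix j) + ⌊C * g (b (ix j))⌋₊)) := by
      intro i j hij
      have h2 := hend (ix i) (ix j) (by
        simp only [hix]
        nlinarith)
      rw [Finset.disjoint_left]
      intro x hx hx'
      rw [Finset.mem_Ioc] at hx hx'
      omega
    intro i j hij
    rcases lt_or_gt_of_ne hij with h2 | h2
    · exact key i j h2
    · exact (key j i h2).symm
  filter_upwards [bc2 h h0 h1 _ hdisj hr] with ω hω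
  have hix' : Tendsto (fun i => b (ix i)) atTop atTop := by
    apply hmono.tendsto_atTop.comp
    apply tendsto_atTop_mono (f := fun i => i) _ tendsto_id
    intro i
    simp only [hix]
    nlinarith [Nat.zero_le i, Nat.zero_le R]
  exact hix'.frequently hω

/-- the almost sure value of the limsup of the gaps of a random set -/
noncomputable def Lam (g φ : ℕ → ℝ) : ℝ≥0∞ :=
  sInf {x : ℝ≥0∞ | ∃ C : ℝ, 0 < C ∧ x = ENNReal.ofReal C ∧ Summable fun n => Q g φ C n / g n}

theorem formula {Ω : Type} [MeasurableSpace Ω] {μ : Measure Ω} {S : Ω → Set ℕ} {φ g : ℕ → ℝ} (hg : Scale g)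
    (h : RandomSubset μ S φ) (h0 : ∀ m, 0 ≤ φ m) (h1 : ∀ m, φ m ≤ 1)
    (hinf : ∑' m, ENNReal.ofReal (φ m) = ⊤) :
    ∀ᵐ ω ∂μ, gapLim g (S ω) = Lam g φ := by
  have hU : ∀ q : ℚ, Lam g φ < ENNReal.ofReal q → ∀ᵐ ω ∂μ, ∀ᶠ n in atTop, ¬ Emp g q (S ω) n := by
    intro q hq
    obtain ⟨x, ⟨C, hC, rfl, hs⟩, hxq⟩ := sInf_lt_iff.1 hq
    have hCq : C < q := by
      by_contra hcon
      push Not at hcon
      exact absurd (ENNReal.ofReal_le_ofReal hcon) (not_le.2 hxq)
    exact upper hg h h0 h1 hC.le hCq hs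
  have hL : ∀ q : ℚ, 0 < q → ENNReal.ofReal q < Lam g φ → ∀ᵐ ω ∂μ, ∃ᶠ n in atTop, Emp g q (S ω) n := by
    intro q hq0 hq
    obtain ⟨r, hr1, hr2⟩ := ENNReal.lt_iff_exists_nnreal_btwn.1 hq
    have hqr : (q : ℝ) < r := by
      by_contra hcon
      push Not at hcon
      have h2 := ENNReal.ofReal_le_ofReal hcon
      rw [ENNReal.ofReal_coe_nnreal] at h2
      exact absurd h2 (not_le.2 hr1)
    have hq0' : (0 : ℝ) < q := by exact_mod_cast hq0
    refine lower hg h h0 h1 hq0'.le hqr ?_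
    intro hs
    have h3 : Lam g φ ≤ ENNReal.ofReal (r : ℝ) := sInf_le ⟨r, hq0'.trans hqr, rfl, hs⟩
    rw [ENNReal.ofReal_coe_nnreal] at h3
    exact absurd h3 (not_le.2 hr2)
  have hU' : ∀ᵐ ω ∂μ, ∀ q : ℚ, Lam g φ < ENNReal.ofReal q → ∀ᶠ n in atTop, ¬ Emp g q (S ω) n := by
    rw [ae_all_iff]
    intro q
    by_cases hq : Lam g φ < ENNReal.ofReal q
    · filter_upwards [hU q hq] with ω hω _
      exact hω
    · exact Eventually.of_forall fun ω hq' => absurd hq' hq
  have hL' : ∀ᵐ ω ∂μ, ∀ q : ℚ, 0 < q → ENNReal.ofReal q < Lam g φ → ∃ᶠ n in atTop, Emp g q (S ω) n := by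
    rw [ae_all_iff]
    intro q
    by_cases hq : 0 < q ∧ ENNReal.ofReal q < Lam g φ
    · filter_upwards [hL q hq.1 hq.2] with ω hω _ _
      exact hω
    · exact Eventually.of_forall fun ω hq1 hq2 => absurd ⟨hq1, hq2⟩ hq
  have hpos : ∀ᶠ n in atTop, 0 < g n := hg.top.eventually_gt_atTop 0
  filter_upwards [ae_infinite h hinf, hU', hL'] with ω hω1 hω2 hω3
  apply le_antisymm
  · apply le_of_forall_gt_imp_ge_of_dense
    intro a ha
    by_contra hcon
    push Not at hcon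
    obtain ⟨q, hq0, hq1, hq2⟩ := ENNReal.lt_iff_exists_rat_btwn.1 (ha.trans hcon)
    have hq3 : Lam g φ < ENNReal.ofReal q := hq1
    have hq4 : ENNReal.ofReal q < gapLim g (S ω) := hq2
    have h5 := exists_emp hω1 hg.nonneg (by exact_mod_cast hq0) hq4
    exact h5 (hω2 q hq3)
  · apply le_of_forall_lt_imp_le_of_dense
    intro a ha
    obtain ⟨q, hq0, hq1, hq2⟩ := ENNReal.lt_iff_exists_rat_btwn.1 ha
    have hq3 : ENNReal.ofReal q < Lam g φ := hq2
    have hqpos : 0 < q := by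
      rcases hq0.lt_or_eq with h4 | h4
      · exact h4
      · rw [← h4] at hq1
        simp at hq1
    refine hq1.le.trans ?_
    exact le_gapLim hω1 hg.mono hpos (by exact_mod_cast hq0) (hω3 q hqpos hq3)

end Pool.Agent.Q110.RS
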