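import Mathlib
import Pool.Agent.Q110.RS.Lower

/-!
Random subsets of the primes: the scales `(log n)^u`.
-/

set_option autoImplicit false

namespace Pool.Agent.Q110.RS

open Filter Finset MeasureTheory ProbabilityTheory
open scoped ENNReal Topology

/-- the scale `(log n)^u` -/
noncomputable def lpw (u : ℝ) (n : ℕ) : ℝ := (Real.log n) ^ u

theorem log_nat_nonneg (n : ℕ) : 0 ≤ Real.log n := Real.log_natCast_nonneg n

theorem tlog : Tendsto (fun n : ℕ => Real.log n) atTop atTop :=
  Real.tendsto_log_atTop.comp tendsto_natCast_atTop_atTop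

theorem log_ge_one {m : ℕ} (h : 3 ≤ m) : 1 ≤ Real.log m := by
  rw [← Real.log_exp 1]
  apply Real.log_le_log (Real.exp_pos 1)
  have := Real.exp_one_lt_d9
  have h6 : (3 : ℝ) ≤ m := by exact_mod_cast h
  linarith

/-- `T (log x)^u < x^δ` eventually -/
theorem pow_growth (u δ T : ℝ) (hδ : 0 < δ) :
    ∀ᶠ x : ℕ in atTop, T * (Real.log x) ^ u < (x : ℝ) ^ δ := by
  have h1 : (fun x : ℝ => Real.log x ^ u) =o[atTop] fun x : ℝ => x ^ δ :=
    isLittleO_log_rpow_rpow_atTop u hδ
  have h2 := h1.bound (show (0 : ℝ) < 1 / (2 * (|T| + 1)) by positivity)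
  have h3 := tendsto_natCast_atTop_atTop.eventually h2
  filter_upwards [h3, eventually_gt_atTop 1] with x hx hx1
  have hx0 : (0 : ℝ) < x := by exact_mod_cast (by omega : 0 < x)
  have hl : 0 ≤ Real.log x := log_nat_nonneg x
  have hpos : 0 < (x : ℝ) ^ δ := Real.rpow_pos_of_pos hx0 δ
  have hlu : 0 ≤ Real.log x ^ u := Real.rpow_nonneg hl u
  rw [Real.norm_of_nonneg hlu, Real.norm_of_nonneg hpos.le] at hx
  have h4 : T * Real.log x ^ u ≤ (|T| + 1) * Real.log x ^ u := by
    apply mul_le_mul_of_nonneg_right _ hlu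
    linarith [le_abs_self T]
  have h5 : (|T| + 1) * Real.log x ^ u ≤ (|T| + 1) * (1 / (2 * (|T| + 1)) * (x : ℝ) ^ δ) :=
    mul_le_mul_of_nonneg_left hx (by positivity)
  have h6 : (|T| + 1) * (1 / (2 * (|T| + 1)) * (x : ℝ) ^ δ) = (x : ℝ) ^ δ / 2 := by
    field_simp
  linarith

theorem log_shift (b : ℝ) (hb : 1 < b) (K u : ℝ) :
    ∀ᶠ n : ℕ in atTop, ∀ m : ℕ, n ≤ m → (m : ℝ) ≤ n + K * (Real.log n) ^ u → Real.log m ≤ b * Real.log n := by
  have h1 := pow_growth u 1 K one_pos
  filter_upwards [h1, tlog.eventually_ge_atTop (Real.log 2 / (b - 1)), eventually_gt_atTop 0] with n e1 e2 e3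
  intro m hm1 hm2
  have hn0 : (0 : ℝ) < n := by exact_mod_cast e3
  rw [Real.rpow_one] at e1
  have hm0 : (0 : ℝ) < m := by
    have : (n : ℝ) ≤ m := by exact_mod_cast hm1
    linarith
  have h2 : Real.log m ≤ Real.log (2 * n) := Real.log_le_log hm0 (by linarith)
  rw [Real.log_mul (by norm_num) hn0.ne'] at h2
  rw [div_le_iff₀ (by linarith)] at e2
  linarith

theorem lpw_nonneg (u : ℝ) (n : ℕ) : 0 ≤ lpw u n := Real.rpow_nonneg (log_nat_nonneg n) u

theorem scale_lpw {u : ℝ} (hu : 0 < u) : Scale (lpw u) where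
  mono := by
    intro a b hab
    unfold lpw
    apply Real.rpow_le_rpow (log_nat_nonneg a) _ hu.le
    rcases Nat.eq_zero_or_pos a with h | h
    · subst h
      simp
      exact log_nat_nonneg b
    · exact Real.log_le_log (by exact_mod_cast h) (by exact_mod_cast hab)
  nonneg := lpw_nonneg u
  top := (tendsto_rpow_atTop hu).comp tlog
  slow := by
    intro K ε hK hε
    have hb : 1 < (1 + ε) ^ (1 / u) := Real.one_lt_rpow (by linarith) (by positivity)
    filter_upwards [log_shift _ hb K u] with n e1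
    unfold lpw
    have h1 : Real.log ((n + ⌊K * Real.log n ^ u⌋₊ : ℕ) : ℝ) ≤ (1 + ε) ^ (1 / u) * Real.log n := by
      apply e1 _ (Nat.le_add_right _ _)
      push_cast
      have := Nat.floor_le (show 0 ≤ K * Real.log n ^ u from mul_nonneg hK.le (lpw_nonneg u n))
      linarith
    have h2 : ((1 + ε) ^ (1 / u) * Real.log n) ^ u = (1 + ε) * Real.log n ^ u := by
      rw [Real.mul_rpow (Real.rpow_nonneg (by linarith) _) (log_nat_nonneg n), ← Real.rpow_mul (by linarith),
        one_div, inv_mul_cancel₀ hu.ne', Real.rpow_one]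
    rw [← h2]
    exact Real.rpow_le_rpow (log_nat_nonneg _) h1 hu.le

/-- `exp (- x / (1 - x)) ≤ 1 - x` -/
theorem exp_le_one_sub {x : ℝ} (hx : x < 1) : Real.exp (-(x / (1 - x))) ≤ 1 - x := by
  rw [← Real.le_log_iff_exp_le (by linarith)]
  have h4 := Real.one_sub_inv_le_log_of_pos (show 0 < 1 - x by linarith)
  refine le_trans (le_of_eq ?_) h4
  have : 1 - x ≠ 0 := by linarith
  field_simp
  ring

end Pool.Agent.Q110.RS
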