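import Mathlib
import Pool.Agent.Q110.RS.Pow

/-!
Random sets: the thinned Cramér model.
-/

set_option autoImplicit false

namespace Pool.Agent.Q110.RS

open Filter Finset MeasureTheory ProbabilityTheory
open scoped ENNReal Topology

/-- Cramér's model, thinned: `m` is chosen with probability `min (1, p / (log m)^(1 + lam))` -/
noncomputable def cram (p lam : ℝ) (m : ℕ) : ℝ := min 1 (p / (Real.log m) ^ (1 + lam))

theorem cram_nonneg {p : ℝ} (hp : 0 ≤ p) (lam : ℝ) (m : ℕ) : 0 ≤ cram p lam m :=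
  le_min zero_le_one (div_nonneg hp (Real.rpow_nonneg (log_nat_nonneg m) _))

theorem cram_le (p lam : ℝ) (m : ℕ) : cram p lam m ≤ 1 := min_le_left _ _

theorem cram_eq {p lam : ℝ} (hp1 : p ≤ 1) (hlam : 0 ≤ lam) {m : ℕ} (hm : 3 ≤ m) :
    cram p lam m = p / (Real.log m) ^ (1 + lam) := by
  unfold cram
  apply min_eq_right
  have h1 : 1 ≤ (Real.log m) ^ (1 + lam) := Real.one_le_rpow (log_ge_one hm) (by linarith)
  rw [div_le_one (by linarith)]
  linarith

theorem tsum_cram {p lam : ℝ} (hp : 0 < p) (hp1 : p ≤ 1) (hlam : 0 ≤ lam) :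
    ∑' m, ENNReal.ofReal (cram p lam m) = ⊤ := by
  by_contra hcon
  have h1 := ENNReal.summable_toReal hcon
  have h2 : Summable (cram p lam) := by
    refine h1.congr fun m => ?_
    rw [ENNReal.toReal_ofReal (cram_nonneg hp.le lam m)]
  have h3 : Summable fun m : ℕ => p * (1 / (m : ℝ)) := by
    apply h2.of_norm_bounded_eventually_nat
    filter_upwards [eventually_ge_atTop 3, pow_growth (1 + lam) 1 1 one_pos] with m hm h5
    have hm0 : (0 : ℝ) < m := by exact_mod_cast (by omega : 0 < m)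
    rw [Real.norm_of_nonneg (by positivity), cram_eq hp1 hlam hm]
    rw [div_eq_mul_one_div p ((Real.log m) ^ (1 + lam))]
    apply mul_le_mul_of_nonneg_left _ hp.le
    have h6 : 0 < (Real.log m) ^ (1 + lam) := Real.rpow_pos_of_pos (by linarith [log_ge_one hm]) _
    rw [one_mul, Real.rpow_one] at h5
    exact one_div_le_one_div_of_le h6 h5.le
  have h4 : Summable fun m : ℕ => 1 / (m : ℝ) := by
    refine (h3.mul_left (1 / p)).congr fun m => ?_
    field_simp
  exact Real.not_summable_one_div_natCast h4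

/-- summability above `1/p` -/
theorem cram_summable {p lam C : ℝ} (hp : 0 < p) (hp1 : p ≤ 1) (hlam : 0 ≤ lam) (hC : 1 / p < C) :
    Summable fun n => Q (lpw (2 + lam)) (cram p lam) C n / lpw (2 + lam) n := by
  obtain ⟨θ, hθ⟩ : ∃ θ, θ = (p * C - 1) / 2 := ⟨_, rfl⟩
  have hpC : 1 < p * C := by
    rw [div_lt_iff₀ hp] at hC
    linarith
  have hθ0 : 0 < θ := by rw [hθ]; linarith
  have hC0 : 0 < C := lt_trans (by positivity) hC
  have hs : Summable fun n : ℕ => 1 / (n : ℝ) ^ (1 + θ) := Real.summable_one_div_nat_rpow.2 (by linarith)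
  apply hs.of_norm_bounded_eventually_nat
  -- `μ = p C / (1 + 3 θ / 2) > 1`, `b^(1 + lam) = μ`
  obtain ⟨μ, hμ⟩ : ∃ μ, μ = p * C / (1 + 3 * θ / 2) := ⟨_, rfl⟩
  have hμ1 : 1 < μ := by
    rw [hμ, one_lt_div (by positivity)]
    have : p * C = 1 + 2 * θ := by rw [hθ]; ring
    linarith
  have hl1 : 0 < 1 + lam := by linarith
  obtain ⟨b, hb⟩ : ∃ b, b = μ ^ (1 / (1 + lam)) := ⟨_, rfl⟩
  have hb1 : 1 < b := by rw [hb]; exact Real.one_lt_rpow hμ1 (by positivity)
  have hb0 : 0 < b := by linarith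
  have hbμ : b ^ (1 + lam) = μ := by
    rw [hb, ← Real.rpow_mul (by linarith), one_div, inv_mul_cancel₀ hl1.ne', Real.rpow_one]
  filter_upwards [log_shift b hb1 C (2 + lam), tlog.eventually_ge_atTop (2 / θ),
    eventually_ge_atTop 3] with n e1 e3 e4
  have hn0 : (0 : ℝ) < n := by exact_mod_cast (by omega : 0 < n)
  set L := Real.log n with hL
  have hL1 : 1 ≤ L := log_ge_one e4
  have hL0 : 0 < L := by linarith
  obtain ⟨Y, hY⟩ : ∃ Y, Y = ⌊C * L ^ (2 + lam)⌋₊ := ⟨_, rfl⟩
  have hLu : 0 < L ^ (2 + lam) := Real.rpow_pos_of_pos hL0 _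
  have hLv : 1 ≤ L ^ (1 + lam) := Real.one_le_rpow hL1 hl1.le
  have hLv0 : 0 < L ^ (1 + lam) := by linarith
  have hLuv : L ^ (2 + lam) = L * L ^ (1 + lam) := by
    rw [← Real.rpow_one_add' hL0.le (by linarith)]
    congr 1
    ring
  have hY1 : (Y : ℝ) ≤ C * L ^ (2 + lam) := by rw [hY]; exact Nat.floor_le (by positivity)
  have hY2 : C * L ^ (2 + lam) < Y + 1 := by rw [hY]; exact Nat.lt_floor_add_one _
  have h2 : ∀ m ∈ Ioc n (n + Y), 1 - cram p lam m ≤ 1 - p / (μ * L ^ (1 + lam)) := by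
    intro m hm
    rw [Finset.mem_Ioc] at hm
    rw [cram_eq hp1 hlam (by omega)]
    have hm0 : (0 : ℝ) < m := by exact_mod_cast (by omega : 0 < m)
    have h3 : Real.log m ≤ b * L := by
      apply e1 m hm.1.le
      have : (m : ℝ) ≤ n + Y := by exact_mod_cast hm.2
      linarith
    have h4 : 0 < Real.log m := by
      have := log_ge_one (m := m) (by omega)
      linarith
    have h5 : (Real.log m) ^ (1 + lam) ≤ μ * L ^ (1 + lam) := by
      rw [← hbμ, ← Real.mul_rpow hb0.le hL0.le]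
      exact Real.rpow_le_rpow h4.le h3 hl1.le
    have h6 : p / (μ * L ^ (1 + lam)) ≤ p / (Real.log m) ^ (1 + lam) :=
      div_le_div_of_nonneg_left hp.le (Real.rpow_pos_of_pos h4 _) h5
    linarith
  have hden : 1 ≤ μ * L ^ (1 + lam) := by nlinarith
  have h3 : Q (lpw (2 + lam)) (cram p lam) C n ≤ Real.exp (-(p * Y / (μ * L ^ (1 + lam)))) := by
    unfold Q lpw
    rw [← hL, ← hY]
    refine (Finset.prod_le_prod (fun m _ => by linarith [cram_le p lam m]) h2).trans ?_
    rw [Finset.prod_const, Nat.card_Ioc, Nat.add_sub_cancel_left]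
    have h4 : 0 ≤ 1 - p / (μ * L ^ (1 + lam)) := by
      have : p / (μ * L ^ (1 + lam)) ≤ 1 := by
        rw [div_le_one (by linarith)]
        linarith
      linarith
    have h5 : 1 - p / (μ * L ^ (1 + lam)) ≤ Real.exp (-(p / (μ * L ^ (1 + lam)))) := by
      have := Real.add_one_le_exp (-(p / (μ * L ^ (1 + lam))))
      linarith
    refine (pow_le_pow_left₀ h4 h5 Y).trans ?_
    rw [← Real.exp_nat_mul]
    apply Real.exp_le_exp.2
    apply le_of_eq
    ring
  have h4 : (1 + θ) * L ≤ p * Y / (μ * L ^ (1 + lam)) := by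
    rw [le_div_iff₀ (by linarith)]
    have h5 : p * (C * L ^ (2 + lam) - 1) ≤ p * Y := mul_le_mul_of_nonneg_left (by linarith) hp.le
    have h6 : 2 ≤ L * θ := by
      rw [div_le_iff₀ hθ0] at e3
      exact e3
    have h7 : p * (C * L ^ (2 + lam)) = (1 + 3 * θ / 2) * μ * (L * L ^ (1 + lam)) := by
      rw [hLuv, hμ]
      field_simp
    have h8 : (1 + θ) * L * (μ * L ^ (1 + lam)) =
        (1 + 3 * θ / 2) * μ * (L * L ^ (1 + lam)) - (L * θ) * (μ * L ^ (1 + lam)) / 2 := by
      ring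
    have h9 : 2 * (μ * L ^ (1 + lam)) ≤ (L * θ) * (μ * L ^ (1 + lam)) :=
      mul_le_mul_of_nonneg_right h6 (by linarith)
    nlinarith
  have h5 : 0 ≤ Q (lpw (2 + lam)) (cram p lam) C n := Q_nonneg (cram_le p lam) C n
  have h6 : Q (lpw (2 + lam)) (cram p lam) C n ≤ 1 / (n : ℝ) ^ (1 + θ) := by
    refine h3.trans ?_
    rw [Real.rpow_def_of_pos hn0, one_div, ← Real.exp_neg]
    apply Real.exp_le_exp.2
    rw [← hL]
    linarith
  have h7 : (1 : ℝ) ≤ lpw (2 + lam) n := by
    unfold lpw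
    exact Real.one_le_rpow hL1 (by linarith)
  rw [Real.norm_of_nonneg (div_nonneg h5 (by linarith))]
  exact (div_le_self h5 h7).trans h6

/-- divergence below `1/p` -/
theorem cram_not_summable {p lam C : ℝ} (hp : 0 < p) (hp1 : p ≤ 1) (hlam : 0 ≤ lam) (hC0 : 0 < C)
    (hC : C < 1 / p) :
    ¬ Summable fun n => Q (lpw (2 + lam)) (cram p lam) C n / lpw (2 + lam) n := by
  intro hs
  have hpC : p * C < 1 := by
    rw [lt_div_iff₀ hp] at hC
    linarith
  obtain ⟨θ, hθ⟩ : ∃ θ, θ = (1 - p * C) / 2 := ⟨_, rfl⟩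
  have hθ0 : 0 < θ := by rw [hθ]; linarith
  have hθ1 : θ < 1 := by
    rw [hθ]
    have := mul_pos hp hC0
    linarith
  have hl1 : 0 < 1 + lam := by linarith
  have hs2 : Summable fun n : ℕ => 1 / (n : ℝ) := by
    apply hs.of_norm_bounded_eventually_nat
    filter_upwards [pow_growth (2 + lam) θ 1 hθ0, tlog.eventually_ge_atTop ((1 - θ) * p / θ + 2),
      eventually_ge_atTop 3] with n e1 e2 e4
    have hn0 : (0 : ℝ) < n := by exact_mod_cast (by omega : 0 < n)
    rw [one_mul] at e1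
    set L := Real.log n with hL
    have hL2 : 2 ≤ L := by
      have : 0 ≤ (1 - θ) * p / θ := div_nonneg (mul_nonneg (by linarith) hp.le) hθ0.le
      linarith
    have hL0 : 0 < L := by linarith
    obtain ⟨Y, hY⟩ : ∃ Y, Y = ⌊C * L ^ (2 + lam)⌋₊ := ⟨_, rfl⟩
    have hLu : 0 < L ^ (2 + lam) := Real.rpow_pos_of_pos hL0 _
    have hLvL : L ≤ L ^ (1 + lam) := by
      calc L = L ^ (1 : ℝ) := (Real.rpow_one L).symm
        _ ≤ L ^ (1 + lam) := Real.rpow_le_rpow_of_exponent_le (by linarith) (by linarith)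
    have hLv0 : 0 < L ^ (1 + lam) := by linarith
    have hLuv : L ^ (2 + lam) = L * L ^ (1 + lam) := by
      rw [← Real.rpow_one_add' hL0.le (by linarith)]
      congr 1
      ring
    have hY1 : (Y : ℝ) ≤ C * L ^ (2 + lam) := by rw [hY]; exact Nat.floor_le (by positivity)
    obtain ⟨x, hx⟩ : ∃ x, x = p / L ^ (1 + lam) := ⟨_, rfl⟩
    have hxL : x ≤ p / L := by
      rw [hx]
      exact div_le_div_of_nonneg_left hp.le hL0 hLvL
    have hpL : p / L < 1 := by
      rw [div_lt_one hL0]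
      linarith
    have hx1 : x < 1 := lt_of_le_of_lt hxL hpL
    have hx0 : 0 < x := by rw [hx]; positivity
    have h2 : ∀ m ∈ Ioc n (n + Y), 1 - x ≤ 1 - cram p lam m := by
      intro m hm
      rw [Finset.mem_Ioc] at hm
      rw [cram_eq hp1 hlam (by omega)]
      have h3 : L ≤ Real.log m := Real.log_le_log hn0 (by exact_mod_cast hm.1.le)
      have h4 : L ^ (1 + lam) ≤ (Real.log m) ^ (1 + lam) := Real.rpow_le_rpow hL0.le h3 hl1.le
      have h5 : p / (Real.log m) ^ (1 + lam) ≤ x := by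
        rw [hx]
        exact div_le_div_of_nonneg_left hp.le hLv0 h4
      linarith
    have h3 := exp_le_one_sub hx1
    have h4 : Real.exp (-((1 - θ) * L)) ≤ Q (lpw (2 + lam)) (cram p lam) C n := by
      unfold Q lpw
      rw [← hL, ← hY]
      refine le_trans ?_ (Finset.prod_le_prod (fun m _ => by linarith) h2)
      rw [Finset.prod_const, Nat.card_Ioc, Nat.add_sub_cancel_left]
      refine le_trans ?_ (pow_le_pow_left₀ (Real.exp_pos _).le h3 Y)
      rw [← Real.exp_nat_mul]
      apply Real.exp_le_exp.2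
      have h5 : (Y : ℝ) * (x / (1 - x)) ≤ C * L ^ (2 + lam) * (x / (1 - x)) :=
        mul_le_mul_of_nonneg_right hY1 (div_nonneg hx0.le (by linarith))
      have h6 : C * L ^ (2 + lam) * (x / (1 - x)) = p * C * L / (1 - x) := by
        have h7 : L ^ (1 + lam) * x = p := by
          rw [hx]
          field_simp
        rw [hLuv]
        calc C * (L * L ^ (1 + lam)) * (x / (1 - x)) = C * L * (L ^ (1 + lam) * x) / (1 - x) := by ring
          _ = _ := by rw [h7]; ring
      have h7 : p * C * L / (1 - x) ≤ (1 - θ) * L := by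
        rw [div_le_iff₀ (by linarith)]
        have h8 : (1 - θ) * L * (p / L) = (1 - θ) * p := by
          have : L ≠ 0 := by linarith
          field_simp
        have h9 : p * C = 1 - 2 * θ := by rw [hθ]; ring
        rw [h9]
        have h10 : (1 - θ) * p ≤ L * θ := by
          rw [← div_le_iff₀ hθ0]
          linarith
        have h11 : (1 - θ) * L * x ≤ (1 - θ) * L * (p / L) :=
          mul_le_mul_of_nonneg_left hxL (mul_nonneg (by linarith) hL0.le)
        nlinarith
      linarith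
    have h5 : Real.exp (-((1 - θ) * L)) = 1 / (n : ℝ) * (n : ℝ) ^ θ := by
      have h6 : (n : ℝ)⁻¹ = Real.exp (-L) := by rw [Real.exp_neg, hL, Real.exp_log hn0]
      rw [Real.rpow_def_of_pos hn0, one_div, ← hL, h6, ← Real.exp_add]
      congr 1
      ring
    rw [h5] at h4
    rw [Real.norm_of_nonneg (by positivity)]
    unfold lpw
    rw [← hL, le_div_iff₀ (by positivity)]
    refine le_trans ?_ h4
    exact mul_le_mul_of_nonneg_left e1.le (by positivity)
  exact Real.not_summable_one_div_natCast hs2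

theorem Lam_cram {p lam : ℝ} (hp : 0 < p) (hp1 : p ≤ 1) (hlam : 0 ≤ lam) :
    Lam (lpw (2 + lam)) (cram p lam) = ENNReal.ofReal (1 / p) := by
  apply le_antisymm
  · apply le_of_forall_gt_imp_ge_of_dense
    intro a ha
    obtain ⟨r, hr1, hr2⟩ := ENNReal.lt_iff_exists_nnreal_btwn.1 ha
    have h1 : 1 / p < (r : ℝ) := by
      by_contra hcon
      push Not at hcon
      have h2 := ENNReal.ofReal_le_ofReal hcon
      rw [ENNReal.ofReal_coe_nnreal] at h2
      exact absurd h2 (not_le.2 hr1)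
    refine le_trans (sInf_le ⟨r, lt_trans (by positivity) h1, rfl, cram_summable hp hp1 hlam h1⟩) ?_
    rw [ENNReal.ofReal_coe_nnreal]
    exact hr2.le
  · apply le_sInf
    rintro x ⟨C, hC, rfl, hs⟩
    apply ENNReal.ofReal_le_ofReal
    by_contra hcon
    push Not at hcon
    exact cram_not_summable hp hp1 hlam hC hcon hs

end Pool.Agent.Q110.RS
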