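import Mathlib
import Pool.Agent.H510R2.Maier.MB9

/-!
Maier's matrix for windows of length `(log X)^u`, `2 ≤ u < 3`: the number of integers without small
prime factors. Adapted from `Pool.Agent.H510R2.Maier` (helper510), where `u = 2`.
-/

set_option autoImplicit false

open Finset Filter Topology

namespace Pool.Agent.Q110.RS.M

open Pool.Agent.H510R2.Maier
open Pool.Agent.H510R2.Maier.G (tendsto_z log_z PI_bd)

/-- the length of the windows -/
noncomputable def Yu (lam u L : ℝ) : ℕ := ⌊lam * L ^ u⌋₊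

theorem Yu_tendsto {lam u : ℝ} (hlam : 0 < lam) (hu : 0 < u) :
    Tendsto (fun L : ℝ => Yu lam u L) atTop atTop := by
  unfold Yu
  exact tendsto_nat_floor_atTop.comp (ttop lam u hlam hu)

/-- telescoping bound for one cell -/
theorem cell_bound {u a b : ℝ} (ha : 1 ≤ a) (hab : a ≤ b) (hb : b ≤ u / 2) (hu : 2 ≤ u) :
    Real.log (b / a) / (u - b) ≤
      (1 + (b - a)) / u * (Real.log (b / (u - b)) - Real.log (a / (u - a))) := by
  have hub : 1 ≤ u - b := by linarith
  have hua : 0 < u - a := by linarith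
  have hb0 : 0 < b := by linarith
  have ha0 : 0 < a := by linarith
  set x := Real.log (b / a) with hx
  have hx0 : 0 ≤ x := Real.log_nonneg (by rw [le_div_iff₀ ha0]; linarith)
  have h1 : Real.log (b / (u - b)) - Real.log (a / (u - a)) = x + Real.log ((u - a) / (u - b)) := by
    rw [hx, Real.log_div hb0.ne' (by linarith), Real.log_div ha0.ne' hua.ne',
      Real.log_div hb0.ne' ha0.ne', Real.log_div hua.ne' (by linarith)]
    ring
  have h2 : (b - a) / (u - a) ≤ Real.log ((u - a) / (u - b)) := by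
    have h3 := Real.one_sub_inv_le_log_of_pos (show 0 < (u - a) / (u - b) by positivity)
    refine le_trans (le_of_eq ?_) h3
    rw [inv_div]
    field_simp
    ring
  have h3 : a * x ≤ b - a := by
    have h4 := Real.log_le_sub_one_of_pos (show 0 < b / a by positivity)
    rw [← hx] at h4
    have h5 : a * (b / a - 1) = b - a := by field_simp
    nlinarith
  have h4 : x * u / (u - a) ≤ x + Real.log ((u - a) / (u - b)) := by
    have h5 : a * x / (u - a) ≤ (b - a) / (u - a) := by gcongr
    have h6 : x * u / (u - a) = x + a * x / (u - a) := by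
      field_simp
      ring
    linarith
  have h5 : 1 / (u - b) ≤ (1 + (b - a)) / (u - a) := by
    rw [div_le_div_iff₀ (by linarith) hua]
    nlinarith
  rw [h1]
  calc x / (u - b) = x * (1 / (u - b)) := by ring
    _ ≤ x * ((1 + (b - a)) / (u - a)) := mul_le_mul_of_nonneg_left h5 hx0
    _ = (1 + (b - a)) / u * (x * u / (u - a)) := by
        have : u ≠ 0 := by linarith
        field_simp
    _ ≤ _ := mul_le_mul_of_nonneg_left h4 (div_nonneg (by linarith) (by linarith))

/-- the cells -/
noncomputable def ee (u : ℝ) (N i : ℕ) : ℝ := 1 + i * ((u / 2 - 1) / N)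

theorem ee_zero (u : ℝ) (N : ℕ) : ee u N 0 = 1 := by unfold ee; simp

theorem ee_last (u : ℝ) (N : ℕ) (hN : 0 < N) : ee u N N = u / 2 := by
  unfold ee
  have : (N : ℝ) ≠ 0 := by exact_mod_cast hN.ne'
  field_simp
  ring

theorem ee_mono {u : ℝ} (hu : 2 ≤ u) (N : ℕ) : Monotone (ee u N) := by
  intro i j hij
  unfold ee
  have h1 : (i : ℝ) ≤ j := by exact_mod_cast hij
  have h2 : 0 ≤ (u / 2 - 1) / N := div_nonneg (by linarith) (Nat.cast_nonneg N)
  nlinarith

theorem sum_cells {u : ℝ} (hu : 2 ≤ u) (N : ℕ) (hN : 0 < N) :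
    ∑ i ∈ range N, Real.log (ee u N (i + 1) / ee u N i) / (u - ee u N (i + 1)) ≤
      (1 + (u / 2 - 1) / N) / u * Real.log (u - 1) := by
  have h1 : ∀ i ∈ range N, Real.log (ee u N (i + 1) / ee u N i) / (u - ee u N (i + 1)) ≤
      (1 + (u / 2 - 1) / N) / u * (Real.log (ee u N (i + 1) / (u - ee u N (i + 1))) -
        Real.log (ee u N i / (u - ee u N i))) := by
    intro i hi
    rw [mem_range] at hi
    have e0 : 1 ≤ ee u N i := by
      have := ee_mono hu N (Nat.zero_le i)
      rwa [ee_zero] at this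
    have e1 : ee u N i ≤ ee u N (i + 1) := ee_mono hu N (Nat.le_succ i)
    have e2 : ee u N (i + 1) ≤ u / 2 := by
      have := ee_mono hu N (show i + 1 ≤ N by omega)
      rwa [ee_last u N hN] at this
    have h2 := cell_bound e0 e1 e2 hu
    have h3 : ee u N (i + 1) - ee u N i = (u / 2 - 1) / N := by
      unfold ee
      push_cast
      ring
    rwa [h3] at h2
  refine (Finset.sum_le_sum h1).trans ?_
  rw [← Finset.mul_sum, Finset.sum_range_sub (fun i => Real.log (ee u N i / (u - ee u N i))), ee_last u N hN,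
    ee_zero]
  apply le_of_eq
  have h2 : u / 2 / (u - u / 2) = 1 := by
    have : u ≠ 0 := by linarith
    field_simp
    norm_num
  rw [h2, Real.log_one, one_div, Real.log_inv]
  ring

theorem GG_le' (z : ℕ) (S : Finset ℕ) (T : ℕ) (hT : T < (z + 1) ^ 3) :
    (GG z S T).card ≤ 1 + (PI z T).card + ∑ p ∈ PI z (Nat.sqrt T), (PI z (T / p)).card + ∑ q ∈ S, T / q := by
  classical
  have h1 : GG z S T ⊆ {1} ∪ PI z T ∪ (PI z (Nat.sqrt T)).biUnion (fun p => (PI z (T / p)).image (fun m => p * m)) ∪
      S.biUnion (fun q => (Icc 1 T).filter (fun h => q ∣ h)) := by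
    intro m hm
    have hm1 := Finset.mem_Icc.1 (Finset.mem_filter.1 hm).1
    have hm2 := (Finset.mem_filter.1 hm).2
    rw [Finset.mem_union, Finset.mem_union, Finset.mem_union]
    by_cases hS : ∃ q ∈ S, q ∣ m
    · obtain ⟨q, hq, hd⟩ := hS
      right
      exact Finset.mem_biUnion.2 ⟨q, hq, Finset.mem_filter.2 ⟨Finset.mem_Icc.2 hm1, hd⟩⟩
    · left
      push Not at hS
      have hm3 : ∀ p : ℕ, p.Prime → p ∣ m → z < p := fun p hp hd =>
        (hm2 p hp hd).resolve_right (fun h => hS p h hd)
      by_cases hone : m = 1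
      · left; left; simp [hone]
      by_cases hprime : m.Prime
      · left; right
        exact mem_PI.2 ⟨⟨hm3 m hprime dvd_rfl, hm1.2⟩, hprime⟩
      · right
        have hp := Nat.minFac_prime hone
        have hsq : m.minFac ^ 2 ≤ m := Nat.minFac_sq_le_self (by omega) hprime
        set p := m.minFac with hpdef
        have hpd : p ∣ m := Nat.minFac_dvd m
        obtain ⟨k, hk⟩ := hpd
        have hzp : z < p := hm3 p hp ⟨k, hk⟩
        have hk1 : k ≠ 1 := by
          rintro rfl
          rw [mul_one] at hk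
          rw [hk] at hprime
          exact hprime hp
        have hk0 : 0 < k := by
          rcases Nat.eq_zero_or_pos k with h | h
          · rw [h, mul_zero] at hk; omega
          · exact h
        have hkp : k.Prime := by
          by_contra hkn
          have h2 := Nat.minFac_sq_le_self hk0 hkn
          have h3 : z < k.minFac := hm3 _ (Nat.minFac_prime hk1) ((Nat.minFac_dvd k).trans ⟨p, by rw [hk]; ring⟩)
          have h4 : (z + 1) ^ 3 ≤ m := by
            calc (z + 1) ^ 3 = (z + 1) * (z + 1) ^ 2 := by ring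
              _ ≤ p * k.minFac ^ 2 := Nat.mul_le_mul hzp (Nat.pow_le_pow_left h3 2)
              _ ≤ p * k := Nat.mul_le_mul_left _ h2
              _ = m := hk.symm
          omega
        have hzk : z < k := hm3 k hkp ⟨p, by rw [hk]; ring⟩
        have hpk : p * k ≤ T := by rw [← hk]; exact hm1.2
        refine Finset.mem_biUnion.2 ⟨p, mem_PI.2 ⟨⟨hzp, ?_⟩, hp⟩, Finset.mem_image.2 ⟨k, mem_PI.2 ⟨⟨hzk, ?_⟩, hkp⟩, hk.symm⟩⟩
        · rw [Nat.le_sqrt, ← sq]
          exact hsq.trans hm1.2
        · rw [Nat.le_div_iff_mul_le hp.pos, mul_comm]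
          exact hpk
  refine (Finset.card_le_card h1).trans ?_
  refine (Finset.card_union_le _ _).trans ?_
  apply Nat.add_le_add
  · refine (Finset.card_union_le _ _).trans ?_
    apply Nat.add_le_add
    · refine (Finset.card_union_le _ _).trans ?_
      simp
    · refine Finset.card_biUnion_le.trans ?_
      apply Finset.sum_le_sum
      intro p hp
      exact Finset.card_image_le
  · refine Finset.card_biUnion_le.trans ?_
    apply Finset.sum_le_sum
    intro p hp
    rw [show (Icc 1 T) = Ioc 0 T from rfl, Nat.Ioc_filter_dvd_card_eq_div]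

theorem PI_Yu {lam u : ℝ} (hlam : 0 < lam) (hu : 0 < u) (δ : ℝ) (hδ : 0 < δ) : ∀ᶠ L : ℝ in atTop,
    ∀ a : ℕ, ((PI a (Yu lam u L)).card : ℝ) ≤ (1 / u + δ) * (Yu lam u L / Real.log L) := by
  have h1 := tlogfloor lam u hlam hu
  obtain ⟨ε, hε⟩ : ∃ ε, ε = δ * u / 2 := ⟨_, rfl⟩
  have hε0 : 0 < ε := by rw [hε]; positivity
  have h2 : u * (1 + ε) / (1 + 2 * ε) < u := by
    rw [div_lt_iff₀ (by positivity)]
    nlinarith
  have h3 := h1.eventually_const_lt h2
  have hY := Yu_tendsto hlam hu
  have h4 := hY.eventually (pi_ev ε hε0)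
  filter_upwards [h3, h4, eventually_gt_atTop (1 : ℝ), hY.eventually_ge_atTop 2] with L h5 h6 h7 h8
  intro a
  have h9 := Real.log_pos h7
  have h10 : ((PI a (Yu lam u L)).card : ℝ) ≤ Nat.primeCounting (Yu lam u L) := by exact_mod_cast card_PI_le _ _
  refine (h10.trans h6).trans ?_
  rw [lt_div_iff₀ h9] at h5
  have h11 : Real.log (Yu lam u L) = Real.log ⌊lam * L ^ u⌋₊ := rfl
  rw [← h11] at h5
  have h12 : (2 : ℝ) ≤ Yu lam u L := by exact_mod_cast h8
  have h13 : 0 < Real.log (Yu lam u L) := Real.log_pos (by linarith)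
  have h14 : (0 : ℝ) < Yu lam u L := by linarith
  rw [mul_div_assoc', mul_div_assoc', div_le_div_iff₀ h13 h9]
  have h15 : (1 + ε) * Real.log L ≤ (1 / u + δ) * Real.log (Yu lam u L) := by
    have h16 := h5.le
    have h17 : 1 / u + δ = (1 + 2 * ε) / u := by
      rw [hε]
      field_simp
    rw [h17, div_mul_eq_mul_div, le_div_iff₀ hu]
    rw [div_mul_eq_mul_div, div_le_iff₀ (by linarith)] at h16
    linarith
  calc (1 + ε) * (Yu lam u L : ℝ) * Real.log L = (Yu lam u L : ℝ) * ((1 + ε) * Real.log L) := by ring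
    _ ≤ (Yu lam u L : ℝ) * ((1 / u + δ) * Real.log (Yu lam u L)) := by gcongr
    _ = _ := by ring

end Pool.Agent.Q110.RS.M
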