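import Mathlib
import Pool.Agent.Q110.RS.M1

/-!
Maier's matrix for windows of length `(log X)^u`, `2 ≤ u < 3`: products of two primes.
-/

set_option autoImplicit false

open Finset Filter Topology

namespace Pool.Agent.Q110.RS.M

open Pool.Agent.H510R2.Maier
open Pool.Agent.H510R2.Maier.G (tendsto_z log_z PI_bd)

/-- the boundaries of the cells -/
noncomputable def bb (D K u : ℝ) (N i : ℕ) (L : ℝ) : ℕ := ⌊(if i = 0 then 1 / D else K) * L ^ ee u N i⌋₊

theorem bb_zero (D K u : ℝ) (N : ℕ) (L : ℝ) : bb D K u N 0 L = ⌊L / D⌋₊ := by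
  unfold bb
  rw [if_pos rfl, ee_zero, Real.rpow_one]
  congr 1
  ring

theorem bb_cell {D K u : ℝ} (hD : 0 < D) (hK : 0 < K) (hu : 2 ≤ u) (N i : ℕ) :
    Tendsto (fun L : ℝ => R1 (bb D K u N (i + 1) L) - R1 (bb D K u N i L)) atTop
      (𝓝 (Real.log (ee u N (i + 1) / ee u N i))) := by
  unfold bb
  have h0 : ∀ j, 0 < ee u N j := fun j => by
    have := ee_mono hu N (Nat.zero_le j)
    rw [ee_zero] at this
    linarith
  apply R1_cell _ _ _ _ _ _ (h0 _) (h0 _)
  · rw [if_neg (Nat.succ_ne_zero i)]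
    exact hK
  · split_ifs
    · positivity
    · exact hK

theorem bb_mono {D K u : ℝ} (hD : 0 < D) (hK : 1 / D ≤ K) (hu : 2 ≤ u) (N : ℕ) {L : ℝ} (hL : 1 ≤ L) :
    Monotone (fun i => bb D K u N i L) := by
  apply monotone_nat_of_le_succ
  intro i
  unfold bb
  apply Nat.floor_le_floor
  rw [if_neg (Nat.succ_ne_zero i)]
  have h1 : L ^ ee u N i ≤ L ^ ee u N (i + 1) := Real.rpow_le_rpow_of_exponent_le hL (ee_mono hu N (Nat.le_succ i))
  have h2 : 0 < L ^ ee u N i := Real.rpow_pos_of_pos (by linarith) _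
  have hK0 : 0 ≤ K := le_trans (by positivity) hK
  apply mul_le_mul _ h1 h2.le hK0
  split_ifs
  · exact hK
  · exact le_rfl

set_option maxHeartbeats 4000000 in
theorem semis {lam u D : ℝ} (hlam : 0 < lam) (hu : 2 ≤ u) (hD : 1000 ≤ D) (δ : ℝ) (hδ : 0 < δ) :
    ∀ᶠ L : ℝ in atTop, ∑ p ∈ PI ⌊L / D⌋₊ (Nat.sqrt (Yu lam u L)), ((PI ⌊L / D⌋₊ (Yu lam u L / p)).card : ℝ) ≤
      (Real.log (u - 1) / u + δ) * (Yu lam u L / Real.log L) := by
  have hu0 : 0 < u := by linarith
  have hD0 : 0 < D := by linarith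
  obtain ⟨A, hA⟩ : ∃ A, A = Real.log (u - 1) / u := ⟨_, rfl⟩
  have hA0 : 0 ≤ A := by rw [hA]; exact div_nonneg (Real.log_nonneg (by linarith)) hu0.le
  have hA1 : A ≤ 1 := by
    rw [hA, div_le_one hu0]
    have := Real.log_le_sub_one_of_pos (show 0 < u - 1 by linarith)
    linarith
  obtain ⟨x, hx⟩ : ∃ x, x = min (1 / 2) (δ / 28) := ⟨_, rfl⟩
  have hx0 : 0 < x := by rw [hx]; positivity
  have hx1 : x ≤ 1 / 2 := by rw [hx]; exact min_le_left _ _
  have hx2 : x ≤ δ / 28 := by rw [hx]; exact min_le_right _ _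
  obtain ⟨N, hN⟩ : ∃ N : ℕ, (u / 2 - 1) / x + 1 ≤ N := exists_nat_ge _
  have hN0 : 0 < N := by
    rw [Nat.pos_iff_ne_zero]
    rintro rfl
    have : 0 ≤ (u / 2 - 1) / x := div_nonneg (by linarith) hx0.le
    rw [Nat.cast_zero] at hN
    linarith
  have hNr : (0 : ℝ) < N := by exact_mod_cast hN0
  have hh : (u / 2 - 1) / N ≤ x := by
    rw [div_le_iff₀ hNr]
    have h1 : (u / 2 - 1) / x ≤ N := by linarith
    rw [div_le_iff₀ hx0] at h1
    linarith
  have e0 : ∀ i, 1 ≤ ee u N i := fun i => by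
    have := ee_mono hu N (Nat.zero_le i)
    rwa [ee_zero] at this
  have e2 : ∀ i, i < N → ee u N (i + 1) ≤ u / 2 := fun i hi => by
    have := ee_mono hu N (show i + 1 ≤ N by omega)
    rwa [ee_last u N hN0] at this
  obtain ⟨K, hK⟩ : ∃ K, K = lam + 1 := ⟨_, rfl⟩
  have hK1 : 1 ≤ K := by rw [hK]; linarith
  have hK0 : 0 < K := by linarith
  have hDK : 1 / D ≤ K := by
    refine le_trans ?_ hK1
    rw [div_le_one hD0]
    linarith
  -- the limit
  have hlim : Tendsto (fun L : ℝ => ∑ i ∈ range N, (1 + x) / (u - ee u N (i + 1) - x) *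
      (R1 (bb D K u N (i + 1) L) - R1 (bb D K u N i L))) atTop
      (𝓝 (∑ i ∈ range N, (1 + x) / (u - ee u N (i + 1) - x) * Real.log (ee u N (i + 1) / ee u N i))) :=
    tendsto_finset_sum _ fun i _ => (bb_cell hD0 hK0 hu N i).const_mul _
  have hval : ∑ i ∈ range N, (1 + x) / (u - ee u N (i + 1) - x) * Real.log (ee u N (i + 1) / ee u N i) <
      A + δ := by
    have h1 : ∀ i ∈ range N, (1 + x) / (u - ee u N (i + 1) - x) * Real.log (ee u N (i + 1) / ee u N i) ≤
        (1 + x) * (1 + 2 * x) * (Real.log (ee u N (i + 1) / ee u N i) / (u - ee u N (i + 1))) := by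
      intro i hi
      have e3 := e2 i (mem_range.1 hi)
      have hlog : 0 ≤ Real.log (ee u N (i + 1) / ee u N i) := by
        apply Real.log_nonneg
        rw [le_div_iff₀ (by linarith [e0 i])]
        have := ee_mono hu N (Nat.le_succ i)
        linarith
      have h2 : 1 / (u - ee u N (i + 1) - x) ≤ (1 + 2 * x) / (u - ee u N (i + 1)) := by
        rw [div_le_div_iff₀ (by linarith) (by linarith)]
        nlinarith
      calc (1 + x) / (u - ee u N (i + 1) - x) * Real.log (ee u N (i + 1) / ee u N i) =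
          (1 + x) * Real.log (ee u N (i + 1) / ee u N i) * (1 / (u - ee u N (i + 1) - x)) := by ring
        _ ≤ (1 + x) * Real.log (ee u N (i + 1) / ee u N i) * ((1 + 2 * x) / (u - ee u N (i + 1))) :=
            mul_le_mul_of_nonneg_left h2 (mul_nonneg (by linarith) hlog)
        _ = _ := by ring
    refine lt_of_le_of_lt (Finset.sum_le_sum h1) ?_
    rw [← Finset.mul_sum]
    have h2 := sum_cells hu N hN0
    have h3 : (1 + (u / 2 - 1) / N) / u * Real.log (u - 1) ≤ (1 + x) * A := by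
      have h4 : (1 + (u / 2 - 1) / N) / u * Real.log (u - 1) = (1 + (u / 2 - 1) / N) * A := by
        rw [hA]
        ring
      rw [h4]
      exact mul_le_mul_of_nonneg_right (by linarith) hA0
    calc (1 + x) * (1 + 2 * x) * ∑ i ∈ range N, Real.log (ee u N (i + 1) / ee u N i) / (u - ee u N (i + 1)) ≤
          (1 + x) * (1 + 2 * x) * ((1 + x) * A) :=
            mul_le_mul_of_nonneg_left (h2.trans h3) (by positivity)
      _ ≤ A + 7 * x := by
          have h5 : (1 + x) * (1 + 2 * x) * (1 + x) ≤ 1 + 7 * x := by nlinarith [mul_pos hx0 hx0]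
          nlinarith
      _ < A + δ := by linarith
  have hev := hlim.eventually_lt_const hval
  -- the primes of the cells
  obtain ⟨N0, hN0'⟩ := eventually_atTop.1 (pi_ev x hx0)
  have hpow1 : ∀ᶠ L : ℝ in atTop, 2 ≤ lam * L := by
    filter_upwards [eventually_ge_atTop (2 / lam)] with L hL
    rw [div_le_iff₀ hlam] at hL
    linarith
  have hpow2 : ∀ᶠ L : ℝ in atTop, (N0 : ℝ) + 3 ≤ lam / (4 * K) * L := by
    filter_upwards [eventually_ge_atTop (((N0 : ℝ) + 3) / (lam / (4 * K)))] with L hL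
    rw [div_le_iff₀ (by positivity)] at hL
    linarith
  have hlogc : ∀ᶠ L : ℝ in atTop, -Real.log (lam / (4 * K)) ≤ x * Real.log L := by
    filter_upwards [Real.tendsto_log_atTop.eventually_ge_atTop (-Real.log (lam / (4 * K)) / x)] with L hL
    rw [div_le_iff₀ hx0] at hL
    linarith
  filter_upwards [hev, hpow1, hpow2, hlogc, eventually_gt_atTop (1 : ℝ)] with L g1 g2 g3 g4 g5
  have hL0 : 0 < L := by linarith
  have hlog : 0 < Real.log L := Real.log_pos g5
  set Y := Yu lam u L with hY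
  set z := ⌊L / D⌋₊ with hz
  have hLu : L ≤ L ^ u := by
    calc L = L ^ (1 : ℝ) := (Real.rpow_one L).symm
      _ ≤ L ^ u := Real.rpow_le_rpow_of_exponent_le g5.le (by linarith)
  have hYle : (Y : ℝ) ≤ lam * L ^ u := Nat.floor_le (by positivity)
  have hYge : lam * L ^ u / 2 ≤ (Y : ℝ) := by
    have h1 : lam * L ^ u < (Y : ℝ) + 1 := Nat.lt_floor_add_one _
    have h2 : 2 ≤ lam * L ^ u := g2.trans (mul_le_mul_of_nonneg_left hLu hlam.le)
    linarith
  -- one prime
  have hone : ∀ i, i < N → ∀ p ∈ PI (bb D K u N i L) (bb D K u N (i + 1) L),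
      ((PI z (Y / p)).card : ℝ) ≤ (Y / Real.log L) * ((1 + x) / (u - ee u N (i + 1) - x)) * (1 / p) := by
    intro i hi p hp
    have hp' := mem_PI.1 hp
    have hp0 : (0 : ℝ) < p := by exact_mod_cast hp'.2.pos
    have hpK : (p : ℝ) ≤ K * L ^ ee u N (i + 1) := by
      have h1 : (p : ℝ) ≤ bb D K u N (i + 1) L := by exact_mod_cast hp'.1.2
      refine h1.trans ?_
      unfold bb
      rw [if_neg (Nat.succ_ne_zero i)]
      exact Nat.floor_le (by positivity)
    have e3 := e2 i hi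
    obtain ⟨v, hv⟩ : ∃ v, v = u - ee u N (i + 1) := ⟨_, rfl⟩
    have hv1 : 1 ≤ v := by rw [hv]; linarith
    have hq1 : lam / (2 * K) * L ^ v ≤ (Y : ℝ) / p := by
      rw [le_div_iff₀ hp0]
      calc lam / (2 * K) * L ^ v * p ≤ lam / (2 * K) * L ^ v * (K * L ^ ee u N (i + 1)) := by gcongr
        _ = lam * (L ^ v * L ^ ee u N (i + 1)) / 2 := by field_simp
        _ = lam * L ^ u / 2 := by rw [← Real.rpow_add hL0, hv]; ring_nf
        _ ≤ Y := hYge
    have hLv : L ≤ L ^ v := by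
      calc L = L ^ (1 : ℝ) := (Real.rpow_one L).symm
        _ ≤ L ^ v := Real.rpow_le_rpow_of_exponent_le g5.le hv1
    have hq2 : (N0 : ℝ) + 3 ≤ lam / (4 * K) * L ^ v :=
      g3.trans (mul_le_mul_of_nonneg_left hLv (by positivity))
    have hq3 : lam / (2 * K) * L ^ v = 2 * (lam / (4 * K) * L ^ v) := by
      field_simp
      ring
    have hN00 : (0 : ℝ) ≤ N0 := Nat.cast_nonneg _
    have hfl : (Y : ℝ) / p - 1 ≤ ((Y / p : ℕ) : ℝ) := by
      have h1 : (Y : ℝ) / p < ((Y / p : ℕ) : ℝ) + 1 := by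
        rw [div_lt_iff₀ hp0]
        have h2 := Nat.lt_succ_iff.2 (le_refl (Y / p))
        have h3 : Y < (Y / p + 1) * p := by
          have := Nat.lt_mul_div_succ Y hp'.2.pos
          rw [mul_comm]
          exact this
        exact_mod_cast h3
      linarith
    have hfl2 : lam / (4 * K) * L ^ v ≤ ((Y / p : ℕ) : ℝ) := by linarith
    have hN0le : N0 ≤ Y / p := by
      have : (N0 : ℝ) ≤ ((Y / p : ℕ) : ℝ) := by linarith
      exact_mod_cast this
    have hlogq : (v - x) * Real.log L ≤ Real.log ((Y / p : ℕ) : ℝ) := by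
      have h1 : Real.log (lam / (4 * K) * L ^ v) ≤ Real.log ((Y / p : ℕ) : ℝ) :=
        Real.log_le_log (by positivity) hfl2
      rw [Real.log_mul (by positivity) (by positivity), Real.log_rpow hL0] at h1
      linarith
    have hvx : 0 < v - x := by linarith
    have hPI : ((PI z (Y / p)).card : ℝ) ≤ Nat.primeCounting (Y / p) := by exact_mod_cast card_PI_le _ _
    refine (hPI.trans (hN0' _ hN0le)).trans ?_
    have hYp : ((Y / p : ℕ) : ℝ) ≤ (Y : ℝ) / p := Nat.cast_div_le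
    rw [← hv]
    calc (1 + x) * (((Y / p : ℕ) : ℝ) / Real.log ((Y / p : ℕ) : ℝ)) ≤
          (1 + x) * (((Y : ℝ) / p) / ((v - x) * Real.log L)) := by
            apply mul_le_mul_of_nonneg_left _ (by linarith)
            exact div_le_div₀ (by positivity) hYp (by positivity) hlogq
      _ = (Y / Real.log L) * ((1 + x) / (v - x)) * (1 / p) := by field_simp
  -- summation
  have hmono := bb_mono hD0 hDK hu N g5.le
  have hsub : PI z (Nat.sqrt Y) ⊆ PI (bb D K u N 0 L) (bb D K u N N L) := by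
    intro p hp
    have hp' := mem_PI.1 hp
    refine mem_PI.2 ⟨⟨by rw [bb_zero]; exact hp'.1.1, hp'.1.2.trans ?_⟩, hp'.2⟩
    unfold bb
    rw [if_neg hN0.ne', ee_last u N hN0]
    apply Nat.le_floor
    have h1 : (Nat.sqrt Y : ℝ) ≤ Real.sqrt Y := Real.nat_sqrt_le_real_sqrt
    refine h1.trans ?_
    have h2 : (Y : ℝ) ≤ (K * L ^ (u / 2)) ^ 2 := by
      have h3 : (L ^ (u / 2)) ^ 2 = L ^ u := by
        rw [← Real.rpow_natCast, ← Real.rpow_mul hL0.le]
        congr 1
        push_cast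
        ring
      rw [mul_pow, h3]
      refine hYle.trans (mul_le_mul_of_nonneg_right ?_ (by positivity))
      rw [hK]
      nlinarith
    calc Real.sqrt Y ≤ Real.sqrt ((K * L ^ (u / 2)) ^ 2) := Real.sqrt_le_sqrt h2
      _ = K * L ^ (u / 2) := Real.sqrt_sq (by positivity)
  have htel : ∀ f : ℕ → ℝ, ∑ p ∈ PI (bb D K u N 0 L) (bb D K u N N L), f p =
      ∑ i ∈ range N, ∑ p ∈ PI (bb D K u N i L) (bb D K u N (i + 1) L), f p := by
    intro f
    rw [sum_PI f (hmono (Nat.zero_le N))]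
    have h1 : ∀ i ∈ range N, ∑ p ∈ PI (bb D K u N i L) (bb D K u N (i + 1) L), f p =
        ∑ p ∈ (Icc 1 (bb D K u N (i + 1) L)).filter Nat.Prime, f p -
          ∑ p ∈ (Icc 1 (bb D K u N i L)).filter Nat.Prime, f p :=
      fun i _ => sum_PI f (hmono (Nat.le_succ i))
    rw [Finset.sum_congr rfl h1]
    exact (Finset.sum_range_sub (fun i => ∑ p ∈ (Icc 1 (bb D K u N i L)).filter Nat.Prime, f p) N).symm
  have hYL : 0 ≤ (Y : ℝ) / Real.log L := by positivity
  calc ∑ p ∈ PI z (Nat.sqrt Y), ((PI z (Y / p)).card : ℝ)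
      ≤ ∑ p ∈ PI (bb D K u N 0 L) (bb D K u N N L), ((PI z (Y / p)).card : ℝ) :=
        Finset.sum_le_sum_of_subset_of_nonneg hsub fun p _ _ => Nat.cast_nonneg _
    _ = ∑ i ∈ range N, ∑ p ∈ PI (bb D K u N i L) (bb D K u N (i + 1) L), ((PI z (Y / p)).card : ℝ) :=
        htel fun p => ((PI z (Y / p)).card : ℝ)
    _ ≤ ∑ i ∈ range N, (Y / Real.log L) * ((1 + x) / (u - ee u N (i + 1) - x) *
          (R1 (bb D K u N (i + 1) L) - R1 (bb D K u N i L))) := by
        apply Finset.sum_le_sum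
        intro i hi
        rw [← sum_PI_inv (hmono (Nat.le_succ i)), ← mul_assoc, Finset.mul_sum]
        exact Finset.sum_le_sum (hone i (mem_range.1 hi))
    _ = (Y / Real.log L) * ∑ i ∈ range N, (1 + x) / (u - ee u N (i + 1) - x) *
          (R1 (bb D K u N (i + 1) L) - R1 (bb D K u N i L)) := by rw [Finset.mul_sum]
    _ ≤ (Y / Real.log L) * (A + δ) := mul_le_mul_of_nonneg_left g1.le hYL
    _ = _ := by rw [hA]; ring

end Pool.Agent.Q110.RS.M
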