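import Mathlib
import Pool.Agent.Q110.RS.M2

/-!
Maier's matrix for windows of length `(log X)^u`, `2 ≤ u < 3`: the rows `r = 0` have few primes.
-/

set_option autoImplicit false

open Finset Filter Topology

namespace Pool.Agent.Q110.RS.M

open Pool.Agent.H378R2
open Pool.Agent.H510R2.Maier
open Pool.Agent.H510R2.Maier.G (tendsto_z log_z PI_bd VV_zero_HH QQ_le_BE QQ_ev)

/-- the value of Buchstab's function on `[2, 3]` -/
noncomputable def om (u : ℝ) : ℝ := (1 + Real.log (u - 1)) / u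

theorem cube_lt {lam u D : ℝ} (hD : 0 < D) (hu3 : u < 3) : ∀ᶠ L : ℝ in atTop,
    lam * L ^ u < (L / D) ^ 3 := by
  have h1 : Tendsto (fun L : ℝ => L ^ (3 - u)) atTop atTop := tendsto_rpow_atTop (by linarith)
  filter_upwards [h1.eventually_gt_atTop (lam * D ^ 3), eventually_gt_atTop (0 : ℝ)] with L h2 h3
  have h4 : L ^ (3 - u) * L ^ u = L ^ 3 := by
    rw [← Real.rpow_add h3, show (3 : ℝ) - u + u = (3 : ℕ) by norm_num, Real.rpow_natCast]
  have h5 : 0 < L ^ u := Real.rpow_pos_of_pos h3 _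
  rw [div_pow, lt_div_iff₀ (by positivity)]
  calc lam * L ^ u * D ^ 3 = lam * D ^ 3 * L ^ u := by ring
    _ < L ^ (3 - u) * L ^ u := mul_lt_mul_of_pos_right h2 h5
    _ = L ^ 3 := h4

theorem R1_sqrt {lam u D : ℝ} (hlam : 0 < lam) (hu : 2 ≤ u) (hu3 : u < 3) (hD : 1000 ≤ D) : ∀ᶠ L : ℝ in atTop,
    ∑ p ∈ PI ⌊L / D⌋₊ (Nat.sqrt (Yu lam u L)), (1 : ℝ) / p ≤ 1 := by
  have hD0 : 0 < D := by linarith
  have h1 := R1_cell (lam + 1) (1 / D) (u / 2) 1 (by linarith) (by positivity) (by linarith) one_pos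
  rw [div_one] at h1
  have h2 : Real.log (u / 2) < 1 := by
    have := Real.log_le_sub_one_of_pos (show 0 < u / 2 by linarith)
    linarith
  filter_upwards [h1.eventually_lt_const h2, eventually_gt_atTop (1 : ℝ)] with L h3 h4
  rw [Real.rpow_one, show (1 : ℝ) / D * L = L / D by ring] at h3
  have hL0 : 0 < L := by linarith
  have hsub : PI ⌊L / D⌋₊ (Nat.sqrt (Yu lam u L)) ⊆ PI ⌊L / D⌋₊ ⌊(lam + 1) * L ^ (u / 2)⌋₊ := by
    intro p hp
    have hp' := mem_PI.1 hp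
    refine mem_PI.2 ⟨⟨hp'.1.1, hp'.1.2.trans ?_⟩, hp'.2⟩
    apply Nat.le_floor
    have h1 : (Nat.sqrt (Yu lam u L) : ℝ) ≤ Real.sqrt (Yu lam u L) := Real.nat_sqrt_le_real_sqrt
    refine h1.trans ?_
    have hYle : (Yu lam u L : ℝ) ≤ lam * L ^ u := Nat.floor_le (by positivity)
    have h2 : (Yu lam u L : ℝ) ≤ ((lam + 1) * L ^ (u / 2)) ^ 2 := by
      have h3 : (L ^ (u / 2)) ^ 2 = L ^ u := by
        rw [← Real.rpow_natCast, ← Real.rpow_mul hL0.le]
        congr 1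
        push_cast
        ring
      rw [mul_pow, h3]
      refine hYle.trans (mul_le_mul_of_nonneg_right ?_ (by positivity))
      nlinarith
    calc Real.sqrt (Yu lam u L) ≤ Real.sqrt (((lam + 1) * L ^ (u / 2)) ^ 2) := Real.sqrt_le_sqrt h2
      _ = (lam + 1) * L ^ (u / 2) := Real.sqrt_sq (by positivity)
  refine (Finset.sum_le_sum_of_subset_of_nonneg hsub fun p _ _ => by positivity).trans ?_
  rcases le_or_gt ⌊L / D⌋₊ ⌊(lam + 1) * L ^ (u / 2)⌋₊ with h5 | h5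
  · rw [sum_PI_inv h5]
    exact h3.le
  · have : PI ⌊L / D⌋₊ ⌊(lam + 1) * L ^ (u / 2)⌋₊ = ∅ := by
      unfold PI
      rw [Finset.Ioc_eq_empty (by omega)]
      simp
    rw [this]
    simp

theorem S_part {L : ℝ} (T : ℕ) (S : Finset ℕ) (hS : ∑ q ∈ S, (1 : ℝ) / q ≤ 6 / (Real.log L) ^ 2)
    (hlog : 0 < Real.log L) {δ : ℝ} (hδ : 6 ≤ δ * Real.log L) :
    ∑ q ∈ S, ((T / q : ℕ) : ℝ) ≤ δ * (T / Real.log L) := by
  calc ∑ q ∈ S, ((T / q : ℕ) : ℝ) ≤ ∑ q ∈ S, (T : ℝ) * (1 / q) := by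
        apply Finset.sum_le_sum
        intro q _
        refine Nat.cast_div_le.trans ?_
        rw [mul_one_div]
    _ = T * ∑ q ∈ S, (1 : ℝ) / q := by rw [Finset.mul_sum]
    _ ≤ T * (6 / (Real.log L) ^ 2) := by gcongr
    _ = T / Real.log L * (6 / Real.log L) := by field_simp
    _ ≤ T / Real.log L * δ := by
        apply mul_le_mul_of_nonneg_left _ (by positivity)
        rw [div_le_iff₀ hlog]
        exact hδ
    _ = _ := by ring

theorem GG_bd1 {lam u D : ℝ} (hlam : 0 < lam) (hu : 2 ≤ u) (hu3 : u < 3) (hD : 1000 ≤ D) : ∀ᶠ L : ℝ in atTop,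
    ∀ S : Finset ℕ, ∑ q ∈ S, (1 : ℝ) / q ≤ 6 / (Real.log L) ^ 2 → ∀ T : ℕ, T ≤ Yu lam u L →
      ((GG ⌊L / D⌋₊ S T).card : ℝ) ≤ 1 + 20 / Real.log L * T := by
  have hD0 : 0 < D := by linarith
  filter_upwards [PI_bd D hD, R1_sqrt hlam hu hu3 hD, cube_lt (lam := lam) hD0 hu3,
    Real.tendsto_log_atTop.eventually_ge_atTop 1, eventually_gt_atTop (1 : ℝ)] with L h1 h2 h3 h4 h5
  intro S hS T hT
  have hlog : 0 < Real.log L := by linarith
  set z := ⌊L / D⌋₊ with hz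
  have hz1 : L / D < (z : ℝ) + 1 := Nat.lt_floor_add_one _
  have hTr : (T : ℝ) ≤ lam * L ^ u := by
    have h6 : (T : ℝ) ≤ Yu lam u L := by exact_mod_cast hT
    exact h6.trans (Nat.floor_le (by positivity))
  have hT3 : T < (z + 1) ^ 3 := by
    have h6 : (T : ℝ) < (((z + 1) ^ 3 : ℕ) : ℝ) := by
      push_cast
      calc (T : ℝ) ≤ lam * L ^ u := hTr
        _ < (L / D) ^ 3 := h3
        _ ≤ ((z : ℝ) + 1) ^ 3 := by gcongr
    exact_mod_cast h6
  have hG := GG_le' z S T hT3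
  have hG' : ((GG z S T).card : ℝ) ≤ 1 + (PI z T).card + ∑ p ∈ PI z (Nat.sqrt T), ((PI z (T / p)).card : ℝ) +
      ∑ q ∈ S, ((T / q : ℕ) : ℝ) := by exact_mod_cast hG
  have hTL : 0 ≤ (T : ℝ) / Real.log L := by positivity
  have hA : ∑ p ∈ PI z (Nat.sqrt T), ((PI z (T / p)).card : ℝ) ≤ 4 * (T / Real.log L) := by
    calc ∑ p ∈ PI z (Nat.sqrt T), ((PI z (T / p)).card : ℝ)
        ≤ ∑ p ∈ PI z (Nat.sqrt T), 4 * (T / Real.log L) * (1 / p) := by
          apply Finset.sum_le_sum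
          intro p hp
          refine (h1 (T / p)).trans ?_
          have h6 : ((T / p : ℕ) : ℝ) ≤ T / p := Nat.cast_div_le
          calc 4 * ((T / p : ℕ) : ℝ) / Real.log L ≤ 4 * ((T : ℝ) / p) / Real.log L := by gcongr
            _ = _ := by ring
      _ = 4 * (T / Real.log L) * ∑ p ∈ PI z (Nat.sqrt T), (1 : ℝ) / p := by rw [Finset.mul_sum]
      _ ≤ 4 * (T / Real.log L) * 1 := by
          apply mul_le_mul_of_nonneg_left _ (by positivity)
          refine le_trans ?_ h2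
          apply Finset.sum_le_sum_of_subset_of_nonneg
          · intro p hp
            have hp' := mem_PI.1 hp
            exact mem_PI.2 ⟨⟨hp'.1.1, hp'.1.2.trans (Nat.sqrt_le_sqrt hT)⟩, hp'.2⟩
          · intro p _ _
            positivity
      _ = _ := by ring
  have hB := S_part T S hS hlog (show (6 : ℝ) ≤ 6 * Real.log L by linarith)
  have hC := h1 T
  have hC' : 4 * (T : ℝ) / Real.log L = 4 * (T / Real.log L) := by ring
  have hF : 20 / Real.log L * (T : ℝ) = 20 * (T / Real.log L) := by ring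
  rw [hF]
  rw [hC'] at hC
  linarith

theorem GG_bd2 {lam u D : ℝ} (hlam : 0 < lam) (hu : 2 ≤ u) (hu3 : u < 3) (hD : 1000 ≤ D) (δ : ℝ) (hδ : 0 < δ) :
    ∀ᶠ L : ℝ in atTop, ∀ S : Finset ℕ, ∑ q ∈ S, (1 : ℝ) / q ≤ 6 / (Real.log L) ^ 2 →
      ((GG ⌊L / D⌋₊ S (Yu lam u L)).card : ℝ) ≤ 1 + (om u + δ) * (Yu lam u L / Real.log L) := by
  have hD0 : 0 < D := by linarith
  filter_upwards [PI_Yu hlam (show 0 < u by linarith) (δ / 3) (by positivity),
    semis hlam hu hD (δ / 3) (by positivity), cube_lt (lam := lam) hD0 hu3,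
    Real.tendsto_log_atTop.eventually_ge_atTop (18 / δ), eventually_gt_atTop (1 : ℝ)] with L h1 h2 h3 h4 h5
  intro S hS
  have hlog : 0 < Real.log L := Real.log_pos h5
  set z := ⌊L / D⌋₊ with hz
  set T := Yu lam u L with hT
  have hz1 : L / D < (z : ℝ) + 1 := Nat.lt_floor_add_one _
  have hTr : (T : ℝ) ≤ lam * L ^ u := Nat.floor_le (by positivity)
  have hT3 : T < (z + 1) ^ 3 := by
    have h6 : (T : ℝ) < (((z + 1) ^ 3 : ℕ) : ℝ) := by
      push_cast
      calc (T : ℝ) ≤ lam * L ^ u := hTr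
        _ < (L / D) ^ 3 := h3
        _ ≤ ((z : ℝ) + 1) ^ 3 := by gcongr
    exact_mod_cast h6
  have hG := GG_le' z S T hT3
  have hG' : ((GG z S T).card : ℝ) ≤ 1 + (PI z T).card + ∑ p ∈ PI z (Nat.sqrt T), ((PI z (T / p)).card : ℝ) +
      ∑ q ∈ S, ((T / q : ℕ) : ℝ) := by exact_mod_cast hG
  have hB := S_part T S hS hlog (δ := δ / 3) (by
    rw [div_le_iff₀ hδ] at h4
    linarith)
  have hC := h1 z
  have hTL : 0 ≤ (T : ℝ) / Real.log L := by positivity
  have hom : om u = 1 / u + Real.log (u - 1) / u := by unfold om; ring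
  have hfin : (om u + δ) * (T / Real.log L) = (1 / u + δ / 3) * (T / Real.log L) +
      (Real.log (u - 1) / u + δ / 3) * (T / Real.log L) + δ / 3 * (T / Real.log L) := by
    rw [hom]
    ring
  rw [hfin]
  linarith

theorem log_small' {lam u : ℝ} (hlam : 0 < lam) (hu : 2 ≤ u) (δ : ℝ) (hδ : 0 < δ) : ∀ᶠ L : ℝ in atTop,
    (Nat.log 2 (Yu lam u L) : ℝ) + 82 ≤ δ * (Yu lam u L / Real.log L) := by
  have hY := Yu_tendsto hlam (show 0 < u by linarith)
  have hYr : Tendsto (fun L : ℝ => (Yu lam u L : ℝ)) atTop atTop := tendsto_natCast_atTop_atTop.comp hY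
  have h1 := (Real.isLittleO_pow_log_id_atTop (n := 2)).bound (show (0 : ℝ) < δ / 168 by positivity)
  have h2 := hYr.eventually h1
  have h3 : ∀ᶠ L : ℝ in atTop, L ≤ Yu lam u L := by
    filter_upwards [eventually_ge_atTop (2 / lam), eventually_ge_atTop (1 : ℝ)] with L h4 h5
    have h6 : lam * L ^ u < Yu lam u L + 1 := Nat.lt_floor_add_one _
    rw [div_le_iff₀ hlam] at h4
    have h7 : L ^ (2 : ℝ) ≤ L ^ u := Real.rpow_le_rpow_of_exponent_le h5 hu
    rw [Real.rpow_two] at h7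
    have h8 := mul_le_mul_of_nonneg_left h7 hlam.le
    nlinarith
  filter_upwards [h2, h3, eventually_gt_atTop (1 : ℝ), hYr.eventually_ge_atTop (Real.exp 1)] with L h4 h5 h6 h7
  have hlog := Real.log_pos h6
  have hY0 : (0 : ℝ) < Yu lam u L := by linarith
  have hlY : 1 ≤ Real.log (Yu lam u L) := by
    rw [Real.le_log_iff_exp_le hY0]; exact h7
  rw [id, Real.norm_of_nonneg (pow_nonneg (by linarith) 2), Real.norm_of_nonneg hY0.le] at h4
  have h8 : (Nat.log 2 (Yu lam u L) : ℝ) ≤ 2 * Real.log (Yu lam u L) := by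
    have h9 := Real.natLog_le_logb (Yu lam u L) 2
    have h10 : Real.logb 2 (Yu lam u L) ≤ 2 * Real.log (Yu lam u L) := by
      unfold Real.logb
      rw [div_le_iff₀ (Real.log_pos (by norm_num))]
      have := Real.log_two_gt_d9
      nlinarith
    have h11 : ((2 : ℕ) : ℝ) = 2 := by norm_num
    rw [h11] at h9
    linarith
  have h12 : Real.log L ≤ Real.log (Yu lam u L) := Real.log_le_log (by linarith) h5
  rw [mul_div_assoc', le_div_iff₀ hlog]
  calc ((Nat.log 2 (Yu lam u L) : ℝ) + 82) * Real.log L ≤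
        (2 * Real.log (Yu lam u L) + 82 * Real.log (Yu lam u L)) * Real.log (Yu lam u L) := by
        gcongr
        linarith
    _ = 84 * Real.log (Yu lam u L) ^ 2 := by ring
    _ ≤ 84 * (δ / 168 * (Yu lam u L)) := by gcongr
    _ ≤ _ := by nlinarith

/-- the count for `r = 0` -/
theorem VV_zero_le' {lam u D : ℝ} (hlam : 0 < lam) (hu : 2 ≤ u) (hu3 : u < 3) (hD : 1000 ≤ D)
    (δ : ℝ) (hδ : 0 < δ) : ∃ Z : ℕ, ∀ᶠ X : ℝ in atTop,
    ∀ (ps : ℕ) (S : Finset ℕ), GoodP Z ps → GoodS X S →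
      (VV (WD X D S ps) 0 (Yu lam u (Real.log X)) : ℝ) + 80 ≤
        (om u + 5 * δ) * (Yu lam u (Real.log X) / Real.log (Real.log X)) := by
  refine ⟨⌈40 / δ⌉₊, ?_⟩
  have ev := ((GG_bd1 hlam hu hu3 hD).and (GG_bd2 hlam hu hu3 hD δ hδ)).and
    ((log_small' hlam hu δ hδ).and (eventually_gt_atTop (1 : ℝ)))
  filter_upwards [Real.tendsto_log_atTop.eventually ev, eventually_ge_atTop (1 : ℝ)] with X hX hX1
  obtain ⟨⟨h1, h2⟩, h4, h5⟩ := hX
  intro ps S hps hS
  set L := Real.log X with hL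
  have hlog := Real.log_pos h5
  have hS2 := hS.2
  rw [← hL] at hS2
  set Y := Yu lam u L with hY
  set z := ⌊L / D⌋₊ with hz
  have g1 := h1 S hS2
  have g5 := h2 S hS2
  have g6 : (VV (WD X D S ps) 0 Y : ℝ) ≤ (HH z S ps Y).card := by exact_mod_cast VV_zero_HH D hD X hX1 S ps Y
  have hYl : 0 ≤ (Y : ℝ) / Real.log L := by positivity
  rcases hps with rfl | ⟨hps, hpZ⟩
  · have g7 : ((HH z S 1 Y).card : ℝ) ≤ (GG z S Y).card := by exact_mod_cast Finset.card_le_card (HH_one z S Y)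
    have g8 : (0 : ℝ) ≤ Nat.log 2 Y := Nat.cast_nonneg _
    nlinarith
  · have g7 : ((HH z S ps Y).card : ℝ) ≤ (GG z S Y).card + (HH z S ps (Y / ps)).card := by
      exact_mod_cast HH_rec z S ps Y hps
    have g8 := HH_bound z S ps Y hps (20 / Real.log L) (by positivity) g1 (Y / ps) (Nat.div_le_self _ _)
    have g9 : (Nat.log 2 (Y / ps) : ℝ) ≤ Nat.log 2 Y := by
      exact_mod_cast Nat.log_mono_right (Nat.div_le_self _ _)
    have g10 : 2 * (20 / Real.log L) * ((Y / ps : ℕ) : ℝ) ≤ δ * (Y / Real.log L) := by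
      have g11 : ((Y / ps : ℕ) : ℝ) ≤ Y / ps := Nat.cast_div_le
      have g12 : 40 / δ ≤ ps := by
        refine (Nat.le_ceil _).trans ?_
        exact_mod_cast hpZ.le
      have g13 : (0 : ℝ) < ps := by exact_mod_cast hps.pos
      rw [div_le_iff₀ hδ] at g12
      calc 2 * (20 / Real.log L) * ((Y / ps : ℕ) : ℝ) ≤ 2 * (20 / Real.log L) * (Y / ps) := by gcongr
        _ = 40 / ps * (Y / Real.log L) := by field_simp; ring
        _ ≤ δ * (Y / Real.log L) := by
            apply mul_le_mul_of_nonneg_right _ hYl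
            rw [div_le_iff₀ g13]
            linarith
    nlinarith

/-- the rows `r = 0` have few primes -/
theorem side_lower' {lam u D : ℝ} (hlam : 0 < lam) (hu : 2 ≤ u) (hu3 : u < 3) (hD : 1000 ≤ D)
    (δ : ℝ) (hδ : 0 < δ) : ∃ Z : ℕ, ∀ᶠ X : ℝ in atTop,
    ∀ (ps : ℕ) (S : Finset ℕ), GoodP Z ps → GoodS X S →
      ((VV (WD X D S ps) 0 (Yu lam u (Real.log X)) : ℝ) + 80) / BE (PD X D S ps) ≤
        (Real.exp Real.eulerMascheroniConstant * om u + δ) * (Yu lam u (Real.log X)) := by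
  set E := Real.exp Real.eulerMascheroniConstant with hE
  have hE0 : 0 < E := Real.exp_pos _
  have hom0 : 0 ≤ om u := by
    unfold om
    have := Real.log_nonneg (show (1 : ℝ) ≤ u - 1 by linarith)
    positivity
  have hom1 : om u ≤ 1 := by
    unfold om
    rw [div_le_one (by linarith)]
    have := Real.log_le_sub_one_of_pos (show 0 < u - 1 by linarith)
    linarith
  set δ1 : ℝ := min 1 (δ / (5 * E + 6)) with hδ1
  have hδ1p : 0 < δ1 := lt_min one_pos (by positivity)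
  have hδ11 : δ1 ≤ 1 := min_le_left _ _
  have hδ12 : δ1 * (5 * E + 6) ≤ δ := by
    have : δ1 ≤ δ / (5 * E + 6) := min_le_right _ _
    rwa [le_div_iff₀ (by positivity)] at this
  obtain ⟨Z, hZ⟩ := VV_zero_le' hlam hu hu3 hD δ1 hδ1p
  refine ⟨Z, ?_⟩
  have e1 := Real.tendsto_log_atTop.eventually ((QQ_ev D hD δ1 hδ1p).and (eventually_gt_atTop (1 : ℝ)))
  filter_upwards [hZ, e1, eventually_ge_atTop (1 : ℝ)] with X h1 h2 hX1
  intro ps S hps hS
  obtain ⟨h2, h3⟩ := h2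
  have h4 := h1 ps S hps hS
  set L := Real.log X with hL
  have hlog := Real.log_pos h3
  have h5 := QQ_le_BE D hD X hX1 S ps
  have h6 := QQ_pos ⌊L / D⌋₊
  have h7 : (BE (PD X D S ps))⁻¹ ≤ (E + δ1) * Real.log L := (inv_anti₀ h6 h5).trans h2
  have h8 : 0 < BE (PD X D S ps) := lt_of_lt_of_le h6 h5
  have hY0 : (0 : ℝ) ≤ Yu lam u L := Nat.cast_nonneg _
  calc ((VV (WD X D S ps) 0 (Yu lam u L) : ℝ) + 80) / BE (PD X D S ps)
      = ((VV (WD X D S ps) 0 (Yu lam u L) : ℝ) + 80) * (BE (PD X D S ps))⁻¹ := by rw [div_eq_mul_inv]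
    _ ≤ ((om u + 5 * δ1) * (Yu lam u L / Real.log L)) * ((E + δ1) * Real.log L) := by
        apply mul_le_mul h4 h7 (by positivity) (by positivity)
    _ = (om u + 5 * δ1) * (E + δ1) * Yu lam u L := by field_simp
    _ ≤ (E * om u + δ) * Yu lam u L := by
        apply mul_le_mul_of_nonneg_right _ hY0
        nlinarith [mul_nonneg hδ1p.le (sub_nonneg.2 hom1), mul_nonneg hδ1p.le (sub_nonneg.2 hδ11)]

end Pool.Agent.Q110.RS.M
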