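import Mathlib
import Pool.Agent.Q110.RS.M3

/-!
Random subsets of the primes: numerical constants.
-/

set_option autoImplicit false

namespace Pool.Agent.Q110.RS

theorem gamma_lt : Real.eulerMascheroniConstant < 5812 / 10000 := by
  have h1 : Real.eulerMascheroniConstant < Real.eulerMascheroniSeq' 128 :=
    Real.eulerMascheroniConstant_lt_eulerMascheroniSeq' 128
  have h2 : Real.eulerMascheroniSeq' 128 = (harmonic 128 : ℝ) - Real.log ((128 : ℕ) : ℝ) := by
    unfold Real.eulerMascheroniSeq'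
    simp
  have h3 : harmonic 128 ≤ 543315 / 100000 := by
    simp only [harmonic, Finset.sum_range_succ, Finset.sum_range_zero]
    norm_num
  have h3' : ((harmonic 128 : ℚ) : ℝ) ≤ 543315 / 100000 := by
    have : ((harmonic 128 : ℚ) : ℝ) ≤ ((543315 / 100000 : ℚ) : ℝ) := by exact_mod_cast h3
    refine this.trans (le_of_eq ?_)
    norm_num
  have h4 : Real.log ((128 : ℕ) : ℝ) = 7 * Real.log 2 := by
    rw [show ((128 : ℕ) : ℝ) = 2 ^ (7 : ℕ) by norm_num, Real.log_pow]
    norm_num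
  have h5 := Real.log_two_gt_d9
  rw [h2, h4] at h1
  linarith

theorem exp_gamma_gt : (559 : ℝ) / 1000 < Real.exp (-Real.eulerMascheroniConstant) := by
  have h1 : Real.exp (-(5812 / 10000)) < Real.exp (-Real.eulerMascheroniConstant) :=
    Real.exp_lt_exp.2 (by linarith [gamma_lt])
  refine lt_trans ?_ h1
  rw [Real.exp_neg, lt_inv_comm₀ (by norm_num) (Real.exp_pos _)]
  -- `exp 0.5832 < 1000 / 558`
  have h2 := Real.exp_bound' (x := 5812 / 10000) (by norm_num) (by norm_num) (n := 7) (by norm_num)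
  refine lt_of_le_of_lt h2 ?_
  norm_num [Finset.sum_range_succ, Nat.factorial]

/-- `log (1 / (1 - p)) < 2 e^(-γ) p` for `0 < p ≤ 1/5` -/
theorem log_thin {p : ℝ} (hp : 0 < p) (hp1 : p ≤ 1 / 5) :
    Real.log (1 / (1 - p)) < 2 * Real.exp (-Real.eulerMascheroniConstant) * p := by
  have h1 : Real.log (1 / (1 - p)) ≤ p + p ^ 2 / 2 + p ^ 3 / 3 + p ^ 4 / 4 + p ^ 5 / 5 + p ^ 6 / (1 - p) := by
    have h2 := Real.abs_log_sub_add_sum_range_le (x := p) (by rw [abs_of_pos hp]; linarith) 5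
    rw [abs_le] at h2
    have h3 := h2.1
    rw [abs_of_pos hp] at h3
    rw [one_div, Real.log_inv]
    simp only [Finset.sum_range_succ, Finset.sum_range_zero] at h3
    norm_num at h3
    linarith
  refine lt_of_le_of_lt h1 ?_
  have h3 : p ^ 6 / (1 - p) ≤ p ^ 6 * (5 / 4) := by
    rw [div_le_iff₀ (by linarith)]
    have : 0 < p ^ 6 := by positivity
    nlinarith
  have h4 := exp_gamma_gt
  have e2 : p ^ 2 ≤ (1 / 5) ^ 2 := pow_le_pow_left₀ hp.le hp1 2
  have e3 : p ^ 3 ≤ (1 / 5) ^ 3 := pow_le_pow_left₀ hp.le hp1 3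
  have e4 : p ^ 4 ≤ (1 / 5) ^ 4 := pow_le_pow_left₀ hp.le hp1 4
  have e5 : p ^ 5 ≤ (1 / 5) ^ 5 := pow_le_pow_left₀ hp.le hp1 5
  have h6 : 1 + p / 2 + p ^ 2 / 3 + p ^ 3 / 4 + p ^ 4 / 5 + p ^ 5 * (5 / 4) < 1118 / 1000 := by
    norm_num at e2 e3 e4 e5
    linarith
  have h7 : p + p ^ 2 / 2 + p ^ 3 / 3 + p ^ 4 / 4 + p ^ 5 / 5 + p ^ 6 * (5 / 4) < 1118 / 1000 * p := by
    have := mul_lt_mul_of_pos_right h6 hp
    refine lt_of_le_of_lt (le_of_eq ?_) this
    ring
  nlinarith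

/-- Buchstab's function is below `e^(-γ)` on `[2, 2.4]` -/
theorem om_lt {lam : ℝ} (h0 : 0 ≤ lam) (h1 : lam ≤ 2 / 5) :
    M.om (2 + lam) < Real.exp (-Real.eulerMascheroniConstant) := by
  have h4 := exp_gamma_gt
  unfold M.om
  rw [div_lt_iff₀ (by linarith)]
  have h2 : Real.log (2 + lam - 1) ≤ 3365 / 10000 + (lam - 2 / 5) / (7 / 5) := by
    have h3 : 2 + lam - 1 = 7 / 5 * ((1 + lam) / (7 / 5)) := by ring
    rw [h3, Real.log_mul (by norm_num) (by positivity)]
    have h5 : Real.log (7 / 5) ≤ 3365 / 10000 := by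
      rw [Real.log_le_iff_le_exp (by norm_num)]
      refine le_trans ?_ (Real.sum_le_exp_of_nonneg (by norm_num) 7)
      norm_num [Finset.sum_range_succ, Nat.factorial]
    have h6 := Real.log_le_sub_one_of_pos (show 0 < (1 + lam) / (7 / 5) by positivity)
    have h7 : (1 + lam) / (7 / 5) - 1 = (lam - 2 / 5) / (7 / 5) := by
      field_simp
      ring
    linarith
  have h3 : 1 + (3365 / 10000 + (lam - 2 / 5) / (7 / 5)) < 559 / 1000 * (2 + lam) := by
    have : (lam - 2 / 5) / (7 / 5) = 5 / 7 * lam - 2 / 7 := by ring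
    rw [this]
    linarith
  have h5 : 559 / 1000 * (2 + lam) ≤ Real.exp (-Real.eulerMascheroniConstant) * (2 + lam) :=
    mul_le_mul_of_nonneg_right h4.le (by linarith)
  linarith

end Pool.Agent.Q110.RS
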