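import Mathlib
import Pool.Agent.Q110.RS.M3

/-!
Maier's matrix for windows of length `(log X)^u`, `2 ≤ u < 3`: the frequency of windows with few primes.
Adapted from `Pool.Agent.H510R2.Maier.MB9` (helper510), where `u = 2`.
-/

set_option autoImplicit false

open Finset Filter Topology
open Pool.Agent.H378R2

namespace Pool.Agent.Q110.RS.M

open Pool.Agent.H510R2.Maier
open Pool.Agent.H510R2.Maier.G (freq_arith cnt_mono log_bounds)

/-- windows with few primes -/
noncomputable def NFu (κ c u : ℝ) (x : ℕ) : ℕ := by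
  classical
  exact ((Icc 1 x).filter (fun n : ℕ => (cntP Nat.Prime n ⌊c * (Real.log n) ^ u⌋₊ : ℝ) ≤
    κ * (Real.log n) ^ (u - 1))).card

theorem Yu_cube (lam : ℝ) {u : ℝ} (hu3 : u < 3) : ∀ᶠ X : ℝ in atTop,
    (Yu lam u (Real.log X) : ℝ) ≤ (Real.log X) ^ 3 := by
  have h1 := Real.tendsto_log_atTop.eventually (cube_lt (lam := lam) (D := 1) one_pos hu3)
  filter_upwards [h1, Real.tendsto_log_atTop.eventually_ge_atTop (0 : ℝ)] with X h2 h3
  rw [div_one] at h2
  have h4 : (Yu lam u (Real.log X) : ℝ) ≤ max (lam * (Real.log X) ^ u) 0 := by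
    unfold Yu
    rcases le_or_gt 0 (lam * (Real.log X) ^ u) with h | h
    · exact (Nat.floor_le h).trans (le_max_left _ _)
    · rw [Nat.floor_of_nonpos h.le]
      simp
  exact h4.trans (max_le h2.le (by positivity))

theorem shift_pow {c lam u : ℝ} (hc : 0 < c) (hcl : c < lam) (hu : 0 < u) : ∀ᶠ X : ℝ in atTop,
    c * (Real.log X + 2) ^ u ≤ lam * (Real.log X) ^ u := by
  have h1 : Tendsto (fun L : ℝ => (1 + 2 / L) ^ u) atTop (𝓝 ((1 + 0) ^ u)) := by
    apply Tendsto.rpow_const
    · exact (tendsto_id.const_div_atTop 2).const_add 1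
    · right
      exact hu.le
  rw [add_zero, Real.one_rpow] at h1
  have h2 : 1 < lam / c := by rw [one_lt_div hc]; exact hcl
  have h3 := Real.tendsto_log_atTop.eventually (h1.eventually_lt_const h2)
  filter_upwards [h3, Real.tendsto_log_atTop.eventually_gt_atTop (0 : ℝ)] with X h4 h5
  have h6 : Real.log X + 2 = (1 + 2 / Real.log X) * Real.log X := by field_simp
  rw [h6, Real.mul_rpow (by positivity) h5.le]
  have h7 : 0 ≤ (Real.log X) ^ u := Real.rpow_nonneg h5.le u
  calc c * ((1 + 2 / Real.log X) ^ u * (Real.log X) ^ u) = c * (1 + 2 / Real.log X) ^ u * (Real.log X) ^ u := by ring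
    _ ≤ c * (lam / c) * (Real.log X) ^ u := by gcongr
    _ = lam * (Real.log X) ^ u := by field_simp

theorem om_pos {u : ℝ} (hu : 2 ≤ u) : 0 < om u := by
  unfold om
  have := Real.log_nonneg (show (1 : ℝ) ≤ u - 1 by linarith)
  positivity

set_option maxHeartbeats 4000000 in
theorem few_freq' {κ c u η : ℝ} (hu : 2 ≤ u) (hu3 : u < 3) (hκ : 0 < κ) (hc0 : 0 < c)
    (hc : c * (Real.exp Real.eulerMascheroniConstant * om u) < κ) (hη : 0 < η) :
    ∀ᶠ x : ℕ in atTop, (x : ℝ) ^ (1 - η) ≤ NFu κ c u x := by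
  classical
  set E := Real.exp Real.eulerMascheroniConstant * om u with hE
  have hE0 : 0 < E := mul_pos (Real.exp_pos _) (om_pos hu)
  have hc' : c < κ / E := by rwa [lt_div_iff₀ hE0]
  obtain ⟨lam, hlc, h2⟩ := exists_between hc'
  have hlam : 0 < lam := hc0.trans hlc
  have h3 : E * lam < κ := by
    rw [lt_div_iff₀ hE0] at h2
    linarith
  obtain ⟨κ', h4, h5⟩ := exists_between h3
  have hκ'0 : 0 < κ' := lt_trans (by positivity) h4
  set δ := (κ' - E * lam) / lam with hδ
  have hδ0 : 0 < δ := by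
    rw [hδ]; apply div_pos _ hlam; linarith
  have hδl : (E + δ) * lam = κ' := by
    rw [hδ]; field_simp; ring
  set ε : ℝ := min 1 ((κ - κ') / κ') with hε
  have hε0 : 0 < ε := lt_min one_pos (div_pos (by linarith) hκ'0)
  have hε1 : ε ≤ 1 := min_le_left _ _
  have hεκ : (1 + ε) * κ' ≤ κ := by
    have : ε ≤ (κ - κ') / κ' := min_le_right _ _
    rw [le_div_iff₀ hκ'0] at this
    linarith
  set D : ℝ := max 1000 (3 / η) with hDdef
  have hD : 1000 ≤ D := le_max_left _ _
  have hD2 : 3 / η ≤ D := le_max_right _ _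
  have hD0 : 0 < D := by linarith
  obtain ⟨Z, hZ⟩ := side_lower' hlam hu hu3 hD δ hδ0
  obtain ⟨X0, hX0⟩ := rows_sums (ε / 2) (by positivity) (by linarith) Z D hD
  have e3 := shift_pow hc0 hlc (show 0 < u by linarith)
  have e4 := freq_arith η hη (ε / 200) (by positivity) D hD2
  have key : ∀ᶠ X : ℝ in atTop, (3 * X) ^ (1 - η) ≤
      (((Icc 1 ⌊3 * X⌋₊).filter (fun n : ℕ => (cntP Nat.Prime n ⌊c * (Real.log n) ^ u⌋₊ : ℝ) ≤
        κ * (Real.log n) ^ (u - 1))).card : ℝ) := by
    filter_upwards [hZ, eventually_ge_atTop X0, Yu_cube lam hu3, eventually_ge_atTop (40 : ℝ), e3, e4,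
      Real.tendsto_log_atTop.eventually_ge_atTop (1 : ℝ)] with X g1 g2 g3 g4 g5 g6 g7
    obtain ⟨ps, S, hps, hS, hr⟩ := hX0 X g2
    obtain ⟨-, r2, r3, -⟩ := hr 0 (Yu lam u (Real.log X)) g3
    have g8 := g1 ps S hps hS
    have hXpos : 0 < X := by linarith
    set L := Real.log X with hL
    set Y := Yu lam u L with hY
    set W := WD X D S ps with hW
    set B := BE (PD X D S ps) with hB
    have hPp : ∀ p ∈ PD X D S ps, p.Prime := fun p hp => PD_prime hp
    have hB0 : 0 < B := BE_pos hPp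
    have hW0 : (0 : ℝ) < W := by exact_mod_cast WD_pos X D S ps
    have hφ : (W.totient : ℝ) = W * B := totient_prod _ hPp
    have hM1 := MPhi_ge X g4
    set M := MPhi X with hM
    have hM0 : 0 < M := by linarith
    set V : ℝ := (VV W 0 Y : ℝ) with hV
    have hV0 : 0 ≤ V := Nat.cast_nonneg _
    set N1 := ∑ n ∈ Icc 1 ⌊3 * X⌋₊, nu X W 0 n with hN1
    set A := (V + 80) / B with hA
    have hA0 : 0 < A := by positivity
    have hMW : 0 < M / W := by positivity
    have hT : ∑ n ∈ Icc 1 ⌊3 * X⌋₊, nu X W 0 n * thw n Y ≤ (1 + ε / 2) * A * N1 := by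
      refine r2.trans ?_
      have hMφ : 0 < M / W.totient := by rw [hφ]; positivity
      calc (1 + ε / 2 / 4) * (V * (M / W.totient)) + 40 * (M / W.totient)
          ≤ (1 + ε / 2 / 4) * ((V + 80) * (M / W.totient)) := by nlinarith
        _ = (1 + ε / 2 / 4) * A * (M / W) := by
            rw [hA, hφ]; field_simp
        _ ≤ ((1 + ε / 2) * (1 - ε / 2 / 4)) * A * (M / W) := by
            have q1 : 1 + ε / 2 / 4 ≤ (1 + ε / 2) * (1 - ε / 2 / 4) := by nlinarith
            exact mul_le_mul_of_nonneg_right (mul_le_mul_of_nonneg_right q1 hA0.le) hMW.le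
        _ = (1 + ε / 2) * A * ((1 - ε / 2 / 4) * (M / W)) := by ring
        _ ≤ (1 + ε / 2) * A * N1 := by
            apply mul_le_mul_of_nonneg_left r3
            positivity
    have hcnt := count_few X hXpos W 0 (fun n => thw n Y) (fun n => thw_nonneg n Y) A ε N1 hA0 hε0 hε1 rfl hT
    have hsub : rowset X (fun n => thw n Y ≤ (1 + ε) * A) ⊆
        (Icc 1 ⌊3 * X⌋₊).filter (fun n : ℕ => (cntP Nat.Prime n ⌊c * (Real.log n) ^ u⌋₊ : ℝ) ≤
          κ * (Real.log n) ^ (u - 1)) := by
      intro n hn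
      obtain ⟨m1, m2, m3, m4⟩ := mem_rowset.1 hn
      refine Finset.mem_filter.2 ⟨Finset.mem_Icc.2 m1, ?_⟩
      obtain ⟨l1, l2⟩ := log_bounds hXpos m2 m3
      rw [← hL] at l1 l2
      have hYle : (Y : ℝ) ≤ lam * L ^ u := Nat.floor_le (by positivity)
      have s1 : L * cnt n Y ≤ (1 + ε) * A := (thw_ge n Y X hXpos m2).trans m4
      have s2 : (1 + ε) * A ≤ (1 + ε) * ((E + δ) * (lam * L ^ u)) := by
        have : A ≤ (E + δ) * (lam * L ^ u) := g8.trans (by gcongr)
        gcongr
      have hLu : L ^ u = L * L ^ (u - 1) := by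
        rw [← Real.rpow_one_add' (by linarith) (by linarith)]
        congr 1
        ring
      have s3 : (1 + ε) * ((E + δ) * (lam * L ^ u)) = L * (((1 + ε) * κ') * L ^ (u - 1)) := by
        rw [← hδl, hLu]; ring
      have s4 : (cnt n Y : ℝ) ≤ ((1 + ε) * κ') * L ^ (u - 1) := by
        rw [s3] at s2
        exact le_of_mul_le_mul_left (s1.trans s2) (by linarith)
      have s5 : (cnt n Y : ℝ) ≤ κ * (Real.log n) ^ (u - 1) := by
        have hpow : L ^ (u - 1) ≤ (Real.log n) ^ (u - 1) :=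
          Real.rpow_le_rpow (by linarith) l1 (by linarith)
        calc (cnt n Y : ℝ) ≤ ((1 + ε) * κ') * L ^ (u - 1) := s4
          _ ≤ κ * L ^ (u - 1) := by gcongr
          _ ≤ κ * (Real.log n) ^ (u - 1) := by gcongr
      have s6 : ⌊c * (Real.log n) ^ u⌋₊ ≤ Y := by
        apply Nat.floor_le_floor
        refine le_trans ?_ g5
        have h0 : 0 ≤ Real.log n := by linarith
        have hpow : (Real.log n) ^ u ≤ (L + 2) ^ u := Real.rpow_le_rpow h0 l2 (by linarith)
        gcongr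
      rw [cntP_prime]
      have s7 : (cnt n ⌊c * (Real.log n) ^ u⌋₊ : ℝ) ≤ cnt n Y := by exact_mod_cast cnt_mono n s6
      exact s7.trans s5
    have hcard : ((rowset X (fun n => thw n Y ≤ (1 + ε) * A)).card : ℝ) ≤
        (((Icc 1 ⌊3 * X⌋₊).filter (fun n : ℕ => (cntP Nat.Prime n ⌊c * (Real.log n) ^ u⌋₊ : ℝ) ≤
          κ * (Real.log n) ^ (u - 1))).card : ℝ) := by
      exact_mod_cast Finset.card_le_card hsub
    refine le_trans ?_ (hcnt.trans hcard)
    refine g6.trans ?_
    have hWle := WD_le X D hD0 (by linarith) S ps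
    rw [← hW, ← hL] at hWle
    have q1 : X / 40 / W ≤ N1 := by
      refine le_trans ?_ r3
      have : 1 / 2 ≤ 1 - ε / 2 / 4 := by linarith
      calc X / 40 / W = 1 / 2 * (X / 20 / W) := by ring
        _ ≤ (1 - ε / 2 / 4) * (M / W) := by gcongr
    calc ε / 200 * (X / (Real.exp (3 / 2 * (L / D)) * L ^ 4)) ≤ ε / 200 * (X / (Real.exp (3 / 2 * (L / D)) * 1)) := by
          gcongr
          exact one_le_pow₀ g7
      _ ≤ ε / 200 * (X / (W * 1)) := by gcongr
      _ = ε / 5 * (X / 40 / W) := by rw [mul_one]; ring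
      _ ≤ ε / 4 * (X / 40 / W) := by
          have : 0 < X / 40 / W := by positivity
          nlinarith
      _ ≤ ε / 4 * N1 := by gcongr
  have htend : Tendsto (fun x : ℕ => (x : ℝ) / 3) atTop atTop :=
    tendsto_natCast_atTop_atTop.atTop_div_const (by norm_num)
  filter_upwards [htend.eventually key] with x hx
  have h6 : 3 * ((x : ℝ) / 3) = x := by ring
  rw [h6, Nat.floor_natCast] at hx
  unfold NFu
  convert hx

end Pool.Agent.Q110.RS.M
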