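import Mathlib
import Pool.Agent.Q110.RS.Pow
import Pool.Agent.Q110.RS.M4

/-!
Random subsets of the primes: the lower bound from the matrix of Maier.
-/

set_option autoImplicit false

namespace Pool.Agent.Q110.RS

open Filter Finset MeasureTheory ProbabilityTheory
open Pool.Agent.H510R2.Maier (cntP)
open scoped ENNReal Topology

/-- a prime `q` is kept with probability `min (1, p / (log q)^lam)` -/
noncomputable def ret (p lam : ℝ) (m : ℕ) : ℝ := by
  classical
  exact if m.Prime then min 1 (p / (Real.log m) ^ lam) else 0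

theorem ret_nonneg {p : ℝ} (hp : 0 ≤ p) (lam : ℝ) (m : ℕ) : 0 ≤ ret p lam m := by
  unfold ret
  split_ifs
  · exact le_min zero_le_one (div_nonneg hp (Real.rpow_nonneg (log_nat_nonneg m) _))
  · exact le_rfl

theorem ret_le (p lam : ℝ) (m : ℕ) : ret p lam m ≤ 1 := by
  unfold ret
  split_ifs
  · exact min_le_left _ _
  · exact zero_le_one

/-- the density exponent: `- log (1 - p)` for `lam = 0`, and `p` for `lam > 0` -/
noncomputable def rho (p lam : ℝ) : ℝ := if lam = 0 then Real.log (1 / (1 - p)) else p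

theorem prod_primes (φ : ℕ → ℝ) (y : ℝ) (n Y : ℕ) (hy0 : 0 ≤ y)
    (h1 : ∀ m, ¬ m.Prime → φ m = 0) (h2 : ∀ m, n < m → m.Prime → y ≤ 1 - φ m) :
    y ^ cntP Nat.Prime n Y ≤ ∏ m ∈ Ioc n (n + Y), (1 - φ m) := by
  classical
  rw [Pool.Agent.H510R2.Maier.cntP_eq]
  have e1 : ∏ m ∈ Ioc n (n + Y), (1 - φ m) = ∏ h ∈ Icc 1 Y, (1 - φ (n + h)) := by
    refine (Finset.prod_bij (fun h _ => n + h) ?_ ?_ ?_ ?_).symm
    · intro h hh
      rw [Finset.mem_Icc] at hh
      rw [Finset.mem_Ioc]
      omega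
    · intro a _ b _ hab
      omega
    · intro b hb
      rw [Finset.mem_Ioc] at hb
      exact ⟨b - n, by rw [Finset.mem_Icc]; omega, by omega⟩
    · intro h _
      rfl
  rw [e1]
  have e2 : ∀ h ∈ Icc 1 Y, (if (n + h).Prime then y else 1) ≤ 1 - φ (n + h) := by
    intro h hh
    rw [Finset.mem_Icc] at hh
    split_ifs with hp
    · exact h2 _ (by omega) hp
    · rw [h1 _ hp]
      simp
  refine le_trans (le_of_eq ?_) (Finset.prod_le_prod (fun h _ => ?_) e2)
  · rw [Finset.prod_ite, Finset.prod_const, Finset.prod_const_one, mul_one]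
  · split_ifs
    · exact hy0
    · exact zero_le_one

/-- the probability of an empty window with few primes -/
theorem few_prob {p lam κ : ℝ} (hp : 0 < p) (hlam : 0 ≤ lam) (hpl : lam = 0 → p < 1) (hκ : 0 < κ)
    (h : κ * rho p lam < 1) :
    ∃ θ : ℝ, 0 < θ ∧ θ < 1 ∧ ∀ᶠ n : ℕ in atTop, ∀ Y : ℕ,
      (cntP Nat.Prime n Y : ℝ) ≤ κ * (Real.log n) ^ (1 + lam) →
      (n : ℝ) ^ (-θ) ≤ ∏ m ∈ Ioc n (n + Y), (1 - ret p lam m) := by
  by_cases hl0 : lam = 0
  · have hp1' := hpl hl0
    subst hl0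
    unfold rho at h
    rw [if_pos rfl] at h
    obtain ⟨q, hq⟩ : ∃ q, q = 1 - p := ⟨_, rfl⟩
    have hq0 : 0 < q := by rw [hq]; linarith
    have hq1 : q < 1 := by rw [hq]; linarith
    have hlq : Real.log (1 / (1 - p)) = - Real.log q := by rw [← hq, one_div, Real.log_inv]
    have hl0 : 0 < - Real.log q := by
      have := Real.log_neg hq0 hq1
      linarith
    rw [hlq] at h
    refine ⟨κ * (-Real.log q), mul_pos hκ hl0, h, ?_⟩
    filter_upwards [eventually_ge_atTop 3] with n hn Y hY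
    have hn0 : (0 : ℝ) < n := by exact_mod_cast (by omega : 0 < n)
    rw [add_zero, Real.rpow_one] at hY
    refine le_trans ?_ (prod_primes (ret p 0) q n Y hq0.le ?_ ?_)
    · rw [← Real.rpow_natCast]
      refine le_trans (le_of_eq ?_) (Real.rpow_le_rpow_of_exponent_ge hq0 hq1.le hY)
      rw [Real.rpow_def_of_pos hn0, Real.rpow_def_of_pos hq0]
      congr 1
      ring
    · intro m hm
      unfold ret
      rw [if_neg hm]
    · intro m _ hm
      unfold ret
      rw [if_pos hm, Real.rpow_zero, div_one, hq]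
      have := min_le_right 1 p
      linarith
  · unfold rho at h
    rw [if_neg hl0] at h
    have hlam' : 0 < lam := lt_of_le_of_ne hlam (Ne.symm hl0)
    obtain ⟨θ, hθ1, hθ2⟩ := exists_between h
    have hκp : 0 < κ * p := mul_pos hκ hp
    refine ⟨θ, hκp.trans hθ1, hθ2, ?_⟩
    have hlim : Tendsto (fun n : ℕ => p / (Real.log n) ^ lam) atTop (𝓝 0) :=
      ((tendsto_rpow_atTop hlam').comp tlog).const_div_atTop p
    have h1 : 0 < 1 - κ * p / θ := by
      rw [sub_pos, div_lt_one (hκp.trans hθ1)]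
      exact hθ1
    filter_upwards [hlim.eventually_lt_const h1, hlim.eventually_lt_const one_pos, eventually_ge_atTop 3]
      with n e1 e2 e3 Y hY
    have hn0 : (0 : ℝ) < n := by exact_mod_cast (by omega : 0 < n)
    have hL1 : 1 ≤ Real.log n := log_ge_one e3
    obtain ⟨x, hx⟩ : ∃ x, x = p / (Real.log n) ^ lam := ⟨_, rfl⟩
    rw [← hx] at e1 e2
    have hLl : 0 < (Real.log n) ^ lam := Real.rpow_pos_of_pos (by linarith) _
    have hx0 : 0 < x := by rw [hx]; positivity
    refine le_trans ?_ (prod_primes (ret p lam) (1 - x) n Y (by linarith) ?_ ?_)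
    · have h2 := exp_le_one_sub e2
      refine le_trans ?_ (pow_le_pow_left₀ (Real.exp_pos _).le h2 _)
      rw [← Real.exp_nat_mul, Real.rpow_def_of_pos hn0]
      apply Real.exp_le_exp.2
      have h3 : (cntP Nat.Prime n Y : ℝ) * (x / (1 - x)) ≤ κ * (Real.log n) ^ (1 + lam) * (x / (1 - x)) :=
        mul_le_mul_of_nonneg_right hY (div_nonneg hx0.le (by linarith))
      have h4 : κ * (Real.log n) ^ (1 + lam) * (x / (1 - x)) = κ * p * Real.log n / (1 - x) := by
        rw [Real.rpow_add (by linarith), Real.rpow_one]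
        have h5 : (Real.log n) ^ lam * x = p := by
          rw [hx]
          field_simp
        calc κ * (Real.log n * Real.log n ^ lam) * (x / (1 - x)) =
            κ * ((Real.log n) ^ lam * x) * Real.log n / (1 - x) := by ring
          _ = _ := by rw [h5]
      have h5 : κ * p * Real.log n / (1 - x) ≤ θ * Real.log n := by
        rw [div_le_iff₀ (by linarith)]
        have h6 : κ * p ≤ θ * (1 - x) := by
          have h7 : κ * p / θ ≤ 1 - x := by linarith
          rw [div_le_iff₀ (hκp.trans hθ1)] at h7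
          linarith
        nlinarith
      linarith
    · intro m hm
      unfold ret
      rw [if_neg hm]
    · intro m hnm hm
      unfold ret
      rw [if_pos hm]
      have h6 : p / (Real.log m) ^ lam ≤ x := by
        rw [hx]
        apply div_le_div_of_nonneg_left hp.le hLl
        apply Real.rpow_le_rpow (by linarith) _ hlam
        exact Real.log_le_log hn0 (by exact_mod_cast hnm.le)
      have := min_le_right 1 (p / (Real.log m) ^ lam)
      linarith

theorem rho_pos {p lam : ℝ} (hp : 0 < p) (hpl : lam = 0 → p < 1) : 0 < rho p lam := by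
  unfold rho
  split_ifs with h
  · have := hpl h
    apply Real.log_pos
    rw [one_lt_div (by linarith)]
    linarith
  · exact hp

theorem not_summable {p lam C : ℝ} (hp : 0 < p) (hp1 : p ≤ 1) (hlam : 0 ≤ lam) (hlam1 : lam < 1)
    (hpl : lam = 0 → p < 1) (hC : 0 < C)
    (h : C < Real.exp (-Real.eulerMascheroniConstant) / (M.om (2 + lam) * rho p lam)) :
    ¬ Summable fun n => Q (lpw (2 + lam)) (ret p lam) C n / lpw (2 + lam) n := by
  intro hs
  have hr0 := rho_pos hp hpl
  have hom0 := M.om_pos (show (2 : ℝ) ≤ 2 + lam by linarith)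
  obtain ⟨E, hE⟩ : ∃ E, E = Real.exp Real.eulerMascheroniConstant * M.om (2 + lam) := ⟨_, rfl⟩
  have hE0 : 0 < E := by rw [hE]; exact mul_pos (Real.exp_pos _) hom0
  have h1 : C * E < 1 / rho p lam := by
    rw [lt_div_iff₀ (by positivity)] at h
    rw [lt_div_iff₀ hr0, hE]
    have h2 : Real.exp (-Real.eulerMascheroniConstant) * Real.exp Real.eulerMascheroniConstant = 1 := by
      rw [← Real.exp_add]; simp
    have h3 := mul_lt_mul_of_pos_right h (Real.exp_pos Real.eulerMascheroniConstant)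
    rw [h2] at h3
    nlinarith
  obtain ⟨κ, hκ1, hκ2⟩ := exists_between h1
  have hκ0 : 0 < κ := lt_trans (by positivity) hκ1
  have hθ : κ * rho p lam < 1 := by
    rw [lt_div_iff₀ hr0] at hκ2
    exact hκ2
  obtain ⟨θ, hθ0, hθ1, hfp⟩ := few_prob hp hlam hpl hκ0 hθ
  obtain ⟨N0, hN0⟩ := eventually_atTop.1 hfp
  obtain ⟨η, hη⟩ : ∃ η, η = (1 - θ) / 2 := ⟨_, rfl⟩
  have hη0 : 0 < η := by rw [hη]; linarith
  have h3 := M.few_freq' (η := η) (show (2 : ℝ) ≤ 2 + lam by linarith) (show 2 + lam < 3 by linarith) hκ0 hC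
    (by rw [← hE]; exact hκ1) hη0
  have hterm : ∀ n, 0 ≤ Q (lpw (2 + lam)) (ret p lam) C n / lpw (2 + lam) n := fun n =>
    div_nonneg (Q_nonneg (ret_le p lam) C n) (lpw_nonneg _ n)
  obtain ⟨T, hT⟩ : ∃ T, T = ∑' n, Q (lpw (2 + lam)) (ret p lam) C n / lpw (2 + lam) n := ⟨_, rfl⟩
  have hT0 : 0 ≤ T := by rw [hT]; exact tsum_nonneg hterm
  have h4 := pow_growth (2 + lam) η (2 * T + 1) hη0
  have h5 := pow_growth 0 (1 - η) (2 * (N0 + 3)) (by rw [hη]; linarith)
  obtain ⟨x, hx1, hx2, hx3, hx4⟩ := (h3.and (h4.and (h5.and (eventually_ge_atTop 3)))).exists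
  have hx0 : (0 : ℝ) < x := by exact_mod_cast (by omega : 0 < x)
  have hlx : 1 ≤ Real.log x := log_ge_one hx4
  rw [Real.rpow_zero, mul_one] at hx3
  classical
  set F := (Icc 1 x).filter (fun n : ℕ => (cntP Nat.Prime n ⌊C * (Real.log n) ^ (2 + lam)⌋₊ : ℝ) ≤
    κ * (Real.log n) ^ (2 + lam - 1)) with hF
  have hFc : (x : ℝ) ^ (1 - η) ≤ F.card := by
    have : M.NFu κ C (2 + lam) x = F.card := by
      unfold M.NFu
      rw [hF]
    rw [← this]
    exact hx1
  set F' := F.filter (fun n => N0 + 3 ≤ n) with hF'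
  have h6 : ∀ n ∈ F', (x : ℝ) ^ (-θ) / (Real.log x) ^ (2 + lam) ≤
      Q (lpw (2 + lam)) (ret p lam) C n / lpw (2 + lam) n := by
    intro n hn
    rw [hF', Finset.mem_filter, hF, Finset.mem_filter, Finset.mem_Icc] at hn
    obtain ⟨⟨⟨hn2, hn3⟩, hn4⟩, hn1⟩ := hn
    have hn0 : (0 : ℝ) < n := by exact_mod_cast (by omega : 0 < n)
    have hnx : (n : ℝ) ≤ x := by exact_mod_cast hn3
    have hln : 0 < Real.log n := Real.log_pos (by exact_mod_cast (by omega : 1 < n))
    have hlnx : Real.log n ≤ Real.log x := Real.log_le_log hn0 hnx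
    have h7 : (x : ℝ) ^ (-θ) ≤ Q (lpw (2 + lam)) (ret p lam) C n := by
      have h8 := hN0 n (by omega) ⌊C * (Real.log n) ^ (2 + lam)⌋₊ (by
        refine hn4.trans (le_of_eq ?_)
        congr 2
        ring)
      refine le_trans ?_ h8
      exact Real.rpow_le_rpow_of_nonpos hn0 hnx (by linarith)
    apply div_le_div₀ (Q_nonneg (ret_le p lam) C n) h7
    · exact Real.rpow_pos_of_pos hln _
    · exact Real.rpow_le_rpow hln.le hlnx (by linarith)
  have h7 := Finset.card_nsmul_le_sum _ _ _ h6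
  have h8 : ∑ n ∈ F', Q (lpw (2 + lam)) (ret p lam) C n / lpw (2 + lam) n ≤ T := by
    rw [hT]
    exact hs.sum_le_tsum _ fun n _ => hterm n
  rw [nsmul_eq_mul] at h7
  have h9 : (x : ℝ) ^ (1 - η) / 2 ≤ (F'.card : ℝ) := by
    have h10 : F.card ≤ F'.card + (N0 + 3) := by
      have h11 : F ⊆ F' ∪ range (N0 + 3) := by
        intro n hn
        rw [Finset.mem_union, hF', Finset.mem_filter, Finset.mem_range]
        by_cases h12 : N0 + 3 ≤ n
        · exact Or.inl ⟨hn, h12⟩
        · exact Or.inr (by omega)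
      refine (Finset.card_le_card h11).trans ((Finset.card_union_le _ _).trans ?_)
      rw [Finset.card_range]
    have h12 : (F.card : ℝ) ≤ (F'.card : ℝ) + (N0 + 3) := by exact_mod_cast h10
    linarith
  have hlxu : 0 < (Real.log x) ^ (2 + lam) := Real.rpow_pos_of_pos (by linarith) _
  have h10 : (x : ℝ) ^ (1 - η) / 2 * ((x : ℝ) ^ (-θ) / (Real.log x) ^ (2 + lam)) ≤ T :=
    (mul_le_mul_of_nonneg_right h9 (by positivity)).trans (h7.trans h8)
  have h11 : (x : ℝ) ^ (1 - η) * (x : ℝ) ^ (-θ) = (x : ℝ) ^ η := by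
    rw [← Real.rpow_add hx0]
    congr 1
    rw [hη]
    ring
  have h12 : (x : ℝ) ^ η / (2 * (Real.log x) ^ (2 + lam)) ≤ T := by
    calc (x : ℝ) ^ η / (2 * (Real.log x) ^ (2 + lam)) =
        (x : ℝ) ^ (1 - η) / 2 * ((x : ℝ) ^ (-θ) / (Real.log x) ^ (2 + lam)) := by
          rw [← h11]
          ring
      _ ≤ T := h10
  rw [div_le_iff₀ (by positivity)] at h12
  nlinarith

theorem Lam_prime_ge {p lam : ℝ} (hp : 0 < p) (hp1 : p ≤ 1) (hlam : 0 ≤ lam) (hlam1 : lam < 1)
    (hpl : lam = 0 → p < 1) :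
    ENNReal.ofReal (Real.exp (-Real.eulerMascheroniConstant) / (M.om (2 + lam) * rho p lam)) ≤
      Lam (lpw (2 + lam)) (ret p lam) := by
  apply le_sInf
  rintro x ⟨C, hC, rfl, hs⟩
  apply ENNReal.ofReal_le_ofReal
  by_contra hcon
  push Not at hcon
  exact not_summable hp hp1 hlam hlam1 hpl hC hcon hs

end Pool.Agent.Q110.RS
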