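import Mathlib
import Pool.Agent.Q110.RS.Lower

/-!
Random subsets of the primes: monotonicity and comparison of the almost sure values; existence.
-/

set_option autoImplicit false

namespace Pool.Agent.Q110.RS

open Filter Finset MeasureTheory ProbabilityTheory
open scoped ENNReal Topology

theorem Lam_anti {g φ φ' : ℕ → ℝ} (hg : ∀ n, 0 ≤ g n) (h1 : ∀ m, φ m ≤ 1) (h : ∀ m, φ' m ≤ φ m) :
    Lam g φ ≤ Lam g φ' := by
  apply sInf_le_sInf
  rintro x ⟨C, hC, rfl, hs⟩
  refine ⟨C, hC, rfl, ?_⟩
  refine hs.of_nonneg_of_le (fun n => div_nonneg (Q_nonneg h1 C n) (hg n)) fun n => ?_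
  apply div_le_div_of_nonneg_right _ (hg n)
  unfold Q
  exact Finset.prod_le_prod (fun m _ => by linarith [h1 m]) (fun m _ => by linarith [h m])

/-- a product of `k`-th roots is at most the sum -/
theorem prod_le_sum_of_pow {k : ℕ} (hk : 0 < k) (a b : ℕ → ℝ) (ha : ∀ i, 0 ≤ a i) (hb : ∀ i, 0 ≤ b i)
    (hab : ∀ i, (a i) ^ k ≤ b i) : ∏ i ∈ range k, a i ≤ ∑ i ∈ range k, b i := by
  obtain ⟨j, hj, hmax⟩ := Finset.exists_max_image (range k) a ⟨0, mem_range.2 hk⟩
  calc ∏ i ∈ range k, a i ≤ ∏ _i ∈ range k, a j := Finset.prod_le_prod (fun i _ => ha i) hmax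
    _ = (a j) ^ k := by rw [Finset.prod_const, card_range]
    _ ≤ b j := hab j
    _ ≤ ∑ i ∈ range k, b i := Finset.single_le_sum (fun i _ => hb i) hj

theorem Lam_scale {g φ φ' : ℕ → ℝ} (hg : Scale g) (h1 : ∀ m, φ m ≤ 1)
    (h0' : ∀ m, 0 ≤ φ' m) (h1' : ∀ m, φ' m ≤ 1) {k : ℕ} (hk : 0 < k)
    (h : ∀ᶠ m in atTop, (1 - φ' m) ^ k ≤ 1 - φ m) : Lam g φ' ≤ k * Lam g φ := by
  have key : ∀ C C' : ℝ, 0 < C → C < C' → (Summable fun n => Q g φ C n / g n) →
      Summable fun n => Q g φ' (k * C') n / g n := by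
    intro C C' hC hCC hs
    have hC'0 : 0 < C' := hC.trans hCC
    obtain ⟨M0, hM0⟩ := eventually_atTop.1 h
    have hkr : (0 : ℝ) < k := by exact_mod_cast hk
    -- the shifts
    set sh : ℕ → ℕ → ℕ := fun i n => n + ⌊i * C' * g n⌋₊ with hsh
    have hinj : ∀ i, StrictMono (sh i) := by
      intro i a b hab
      simp only [hsh]
      have h2 : ⌊i * C' * g a⌋₊ ≤ ⌊i * C' * g b⌋₊ :=
        Nat.floor_le_floor (mul_le_mul_of_nonneg_left (hg.mono hab.le) (by positivity))
      omega
    have hsum : ∀ i, Summable fun n => 2 * (Q g φ C (sh i n) / g (sh i n)) := fun i =>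
      ((hs.comp_injective (hinj i).injective).mul_left 2)
    have htot : Summable fun n => ∑ i ∈ range k, 2 * (Q g φ C (sh i n) / g (sh i n)) :=
      summable_sum fun i _ => hsum i
    apply htot.of_norm_bounded_eventually_nat
    have hε : 0 < min 1 ((C' - C) / (2 * C)) := lt_min one_pos (div_pos (by linarith) (by positivity))
    filter_upwards [hg.slow (k * C') _ (by positivity) hε, hg.top.eventually_ge_atTop 1,
      hg.top.eventually_ge_atTop (2 / (C' - C)), eventually_ge_atTop M0] with n e1 e2 e3 e4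
    have hgn : 0 < g n := by linarith
    have hQ0 := Q_nonneg (g := g) h1' (k * C') n
    rw [Real.norm_of_nonneg (div_nonneg hQ0 hgn.le)]
    have hsle : ∀ i, i ≤ k → g (sh i n) ≤ (1 + min 1 ((C' - C) / (2 * C))) * g n := by
      intro i hi
      refine (hg.mono ?_).trans e1
      simp only [hsh]
      have h2 : ⌊i * C' * g n⌋₊ ≤ ⌊k * C' * g n⌋₊ := by
        apply Nat.floor_le_floor
        have : (i : ℝ) ≤ k := by exact_mod_cast hi
        gcongr
      omega
    -- disjoint windows
    have hstep : ∀ i, i < k → sh i n + ⌊C * g (sh i n)⌋₊ ≤ sh (i + 1) n := by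
      intro i hi
      have h2 := hsle i hi.le
      have h3 : C * g (sh i n) ≤ C * g n + (C' - C) / 2 * g n := by
        have h4 : C * g (sh i n) ≤ C * ((1 + min 1 ((C' - C) / (2 * C))) * g n) :=
          mul_le_mul_of_nonneg_left h2 hC.le
        have h5 : C * min 1 ((C' - C) / (2 * C)) ≤ (C' - C) / 2 := by
          calc C * min 1 ((C' - C) / (2 * C)) ≤ C * ((C' - C) / (2 * C)) :=
                mul_le_mul_of_nonneg_left (min_le_right _ _) hC.le
            _ = (C' - C) / 2 := by field_simp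
        have h6 := mul_le_mul_of_nonneg_right h5 hgn.le
        nlinarith
      have h4 : 1 ≤ (C' - C) / 2 * g n := by
        rw [div_le_iff₀ (by linarith)] at e3
        linarith
      have h5 : ((sh i n + ⌊C * g (sh i n)⌋₊ : ℕ) : ℝ) < ((sh (i + 1) n + 1 : ℕ) : ℝ) := by
        simp only [hsh]
        push_cast
        have h6 := Nat.floor_le (mul_nonneg hC.le (hg.nonneg (sh i n)))
        have h7 := Nat.floor_le (show 0 ≤ i * C' * g n by positivity)
        have h8 := Nat.lt_floor_add_one (((i : ℝ) + 1) * C' * g n)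
        simp only [hsh] at h3 h6
        nlinarith
      have h6 : sh i n + ⌊C * g (sh i n)⌋₊ < sh (i + 1) n + 1 := by exact_mod_cast h5
      omega
    have hmono : ∀ j, j ≤ k → n ≤ sh j n := fun j _ => by simp only [hsh]; omega
    -- the product over the union
    have hprod : ∀ j, j ≤ k → ∏ m ∈ Ioc n (sh j n), (1 - φ' m) ≤
        ∏ i ∈ range j, ∏ m ∈ Ioc (sh i n) (sh i n + ⌊C * g (sh i n)⌋₊), (1 - φ' m) := by
      intro j
      induction j with
      | zero => intro _; simp [hsh]
      | succ j ih =>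
        intro hj
        rw [Finset.prod_range_succ]
        have hle : sh j n ≤ sh (j + 1) n := by
          have := hstep j (by omega)
          omega
        have h2 : Ioc n (sh (j + 1) n) = Ioc n (sh j n) ∪ Ioc (sh j n) (sh (j + 1) n) :=
          (Finset.Ioc_union_Ioc_eq_Ioc (hmono j (by omega)) hle).symm
        have h3 : Disjoint (Ioc n (sh j n)) (Ioc (sh j n) (sh (j + 1) n)) := by
          rw [Finset.disjoint_left]
          intro x hx hx'
          rw [Finset.mem_Ioc] at hx hx'
          omega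
        rw [h2, Finset.prod_union h3]
        have hnn : ∀ s : Finset ℕ, 0 ≤ ∏ m ∈ s, (1 - φ' m) := fun s =>
          Finset.prod_nonneg fun m _ => by linarith [h1' m]
        apply mul_le_mul (ih (by omega)) _ (hnn _) (Finset.prod_nonneg fun i _ => hnn _)
        have h4 : Ioc (sh j n) (sh j n + ⌊C * g (sh j n)⌋₊) ⊆ Ioc (sh j n) (sh (j + 1) n) :=
          Finset.Ioc_subset_Ioc_right (hstep j (by omega))
        rw [← Finset.prod_sdiff h4]
        have h5 : ∏ m ∈ Ioc (sh j n) (sh (j + 1) n) \ Ioc (sh j n) (sh j n + ⌊C * g (sh j n)⌋₊), (1 - φ' m) ≤ 1 :=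
          Finset.prod_le_one (fun m _ => by linarith [h1' m]) (fun m _ => by linarith [h0' m])
        have h6 := hnn (Ioc (sh j n) (sh j n + ⌊C * g (sh j n)⌋₊))
        nlinarith
    have hQ : Q g φ' (k * C') n ≤ ∑ i ∈ range k, Q g φ C (sh i n) := by
      have h2 := hprod k le_rfl
      have h3 : Q g φ' (k * C') n = ∏ m ∈ Ioc n (sh k n), (1 - φ' m) := rfl
      rw [h3]
      refine h2.trans ?_
      apply prod_le_sum_of_pow hk
      · intro i
        exact Finset.prod_nonneg fun m _ => by linarith [h1' m]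
      · intro i
        exact Q_nonneg h1 C _
      · intro i
        unfold Q
        rw [← Finset.prod_pow]
        apply Finset.prod_le_prod
        · intro m _
          exact pow_nonneg (by linarith [h1' m]) k
        · intro m hm
          rw [Finset.mem_Ioc] at hm
          apply hM0
          have : n ≤ sh i n := by simp only [hsh]; omega
          omega
    rw [div_le_iff₀ hgn, Finset.sum_mul]
    refine hQ.trans (Finset.sum_le_sum fun i hi => ?_)
    have hgi : 0 < g (sh i n) := lt_of_lt_of_le hgn (hg.mono (hmono i (mem_range.1 hi).le))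
    have h2 : g (sh i n) ≤ 2 * g n := by
      have h3 := hsle i (mem_range.1 hi).le
      have h4 := min_le_left 1 ((C' - C) / (2 * C))
      nlinarith
    have h3 := Q_nonneg (g := g) h1 C (sh i n)
    rw [mul_assoc, div_mul_eq_mul_div, ← mul_div_assoc, le_div_iff₀ hgi]
    nlinarith
  -- conclusion
  by_cases hfin : Lam g φ = ⊤
  · rw [hfin, ENNReal.mul_top (by exact_mod_cast hk.ne')]
    exact le_top
  apply le_of_forall_gt_imp_ge_of_dense
  intro a ha
  have hk0 : (k : ℝ≥0∞) ≠ 0 := by exact_mod_cast hk.ne'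
  have hkt : (k : ℝ≥0∞) ≠ ⊤ := ENNReal.natCast_ne_top k
  have h2 : Lam g φ < a / k := by
    rw [ENNReal.lt_div_iff_mul_lt (Or.inl hk0) (Or.inl hkt), mul_comm]
    exact ha
  obtain ⟨x, ⟨C, hC, rfl, hs⟩, hx⟩ := sInf_lt_iff.1 h2
  obtain ⟨r, hr1, hr2⟩ := ENNReal.lt_iff_exists_nnreal_btwn.1 hx
  have hCr : C < (r : ℝ) := by
    by_contra hcon
    push Not at hcon
    have h3 := ENNReal.ofReal_le_ofReal hcon
    rw [ENNReal.ofReal_coe_nnreal] at h3
    exact absurd h3 (not_le.2 hr1)
  have hkr : (0 : ℝ) < k := by exact_mod_cast hk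
  refine le_trans (sInf_le ⟨k * r, mul_pos hkr (hC.trans hCr), rfl, key C r hC hCr hs⟩) ?_
  rw [ENNReal.ofReal_mul hkr.le, ENNReal.ofReal_coe_nnreal, ENNReal.ofReal_natCast, mul_comm]
  rw [ENNReal.lt_div_iff_mul_lt (Or.inl hk0) (Or.inl hkt)] at hr2
  exact hr2.le

/-- random subsets with given probabilities exist -/
theorem exists_random (φ : ℕ → ℝ) (h0 : ∀ m, 0 ≤ φ m) (h1 : ∀ m, φ m ≤ 1) :
    ∃ (μ : Measure (ℕ → Bool)), RandomSubset μ (fun ω => {m | ω m = true}) φ := by
  let ν : ℕ → Measure Bool := fun m =>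
    ENNReal.ofReal (φ m) • Measure.dirac true + ENNReal.ofReal (1 - φ m) • Measure.dirac false
  have hν : ∀ m, IsProbabilityMeasure (ν m) := fun m => ⟨by
    simp only [ν, Measure.coe_add, Measure.coe_smul, Pi.add_apply, Pi.smul_apply, measure_univ, smul_eq_mul,
      mul_one]
    rw [← ENNReal.ofReal_add (h0 m) (by linarith [h1 m])]
    simp⟩
  have hm : ∀ m : ℕ, MeasurableSet {ω : ℕ → Bool | m ∈ ({m | ω m = true} : Set ℕ)} := by
    intro m
    have h2 : {ω : ℕ → Bool | m ∈ ({m | ω m = true} : Set ℕ)} = (fun ω : ℕ → Bool => ω m) ⁻¹' {true} := by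
      ext ω
      simp
    rw [h2]
    exact (measurable_pi_apply m) (measurableSet_singleton true)
  refine ⟨Measure.infinitePi ν, hm, ?_, ?_⟩
  · rw [iIndepSet_iff_meas_biInter hm]
    intro s
    have h2 : (⋂ i ∈ s, {ω : ℕ → Bool | i ∈ ({m | ω m = true} : Set ℕ)}) = Set.pi s (fun _ => {true}) := by
      ext ω
      simp [Set.mem_pi]
    rw [h2, Measure.infinitePi_pi _ (fun i _ => measurableSet_singleton true)]
    refine Finset.prod_congr rfl fun i _ => ?_
    have h3 : {ω : ℕ → Bool | i ∈ ({m | ω m = true} : Set ℕ)} = Set.pi ({i} : Finset ℕ) (fun _ => {true}) := by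
      ext ω
      simp [Set.mem_pi]
    rw [h3, Measure.infinitePi_pi _ (fun i _ => measurableSet_singleton true)]
    simp
  · intro m
    have h3 : {ω : ℕ → Bool | m ∈ ({m | ω m = true} : Set ℕ)} = Set.pi ({m} : Finset ℕ) (fun _ => {true}) := by
      ext ω
      simp [Set.mem_pi]
    rw [h3, Measure.infinitePi_pi _ (fun i _ => measurableSet_singleton true)]
    simp [ν]

end Pool.Agent.Q110.RS
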