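import Mathlib
import Pool.Agent.Q110.RS.PrimeU
import Pool.Agent.Q110.RS.ModelU
import Pool.Agent.Q110.RS.Struct
import Pool.Agent.Q110.RS.Num

/-!
Random subsets of the primes: assembly.
-/

set_option autoImplicit false

namespace Pool.Agent.Q110.RS

open Filter Finset MeasureTheory ProbabilityTheory
open scoped ENNReal Topology

theorem ret_eq {p lam : ℝ} (hp1 : p ≤ 1) (hlam : 0 ≤ lam) {m : ℕ} (hm : 3 ≤ m) (hmp : m.Prime) :
    ret p lam m = p / (Real.log m) ^ lam := by
  unfold ret
  rw [if_pos hmp]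
  apply min_eq_right
  have h1 : 1 ≤ (Real.log m) ^ lam := Real.one_le_rpow (log_ge_one hm) hlam
  rw [div_le_one (by linarith)]
  linarith

theorem tsum_ret {p lam : ℝ} (hp : 0 < p) (hp1 : p ≤ 1) (hlam : 0 ≤ lam) :
    ∑' m, ENNReal.ofReal (ret p lam m) = ⊤ := by
  by_contra hcon
  have h1 := ENNReal.summable_toReal hcon
  have h2 : Summable (ret p lam) := by
    refine h1.congr fun m => ?_
    rw [ENNReal.toReal_ofReal (ret_nonneg hp.le lam m)]
  apply not_summable_one_div_on_primes
  have h3 : Summable fun m : ℕ => 1 / p * ret p lam m := h2.mul_left (1 / p)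
  apply h3.of_norm_bounded_eventually_nat
  filter_upwards [eventually_ge_atTop 3, pow_growth lam 1 1 one_pos] with m hm h5
  have hm0 : (0 : ℝ) < m := by exact_mod_cast (by omega : 0 < m)
  rw [one_mul, Real.rpow_one] at h5
  by_cases hmp : m.Prime
  · rw [Set.indicator_of_mem (show m ∈ {q : ℕ | q.Prime} from hmp), Real.norm_of_nonneg (by positivity),
      ret_eq hp1 hlam hm hmp]
    have h6 : 0 < (Real.log m) ^ lam := Real.rpow_pos_of_pos (by linarith [log_ge_one hm]) _
    have h7 : 1 / p * (p / (Real.log m) ^ lam) = 1 / (Real.log m) ^ lam := by field_simp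
    rw [h7]
    exact one_div_le_one_div_of_le h6 h5.le
  · rw [Set.indicator_of_notMem (show m ∉ {q : ℕ | q.Prime} from hmp), norm_zero]
    exact mul_nonneg (by positivity) (ret_nonneg hp.le lam m)

/-- a random subset of the primes with retention probability `1` is the set of the primes -/
theorem Lam_one : Lam (lpw 2) (ret 1 0) = gapLim (lpw 2) {q : ℕ | q.Prime} := by
  obtain ⟨μ, hμ⟩ := exists_random (ret 1 0) (ret_nonneg zero_le_one 0) (ret_le 1 0)
  have hP : IsProbabilityMeasure μ := hμ.indep.isProbabilityMeasure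
  have h1 := formula (scale_lpw (show (0 : ℝ) < 2 by norm_num)) hμ (ret_nonneg zero_le_one 0) (ret_le 1 0)
    (tsum_ret one_pos le_rfl le_rfl)
  have h2 : ∀ᵐ ω ∂μ, ∀ m : ℕ, m ∈ ({m | ω m = true} : Set ℕ) ↔ m.Prime := by
    rw [ae_all_iff]
    intro m
    by_cases hm : m.Prime
    · have h3 : μ {ω | m ∈ ({m | ω m = true} : Set ℕ)} = 1 := by
        rw [hμ.prob m]
        unfold ret
        rw [if_pos hm]
        simp
      have h4 := (prob_compl_eq_zero_iff (hμ.meas m)).2 h3
      rw [measure_eq_zero_iff_ae_notMem] at h4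
      filter_upwards [h4] with ω hω
      have h5 : m ∈ ({m | ω m = true} : Set ℕ) := by
        by_contra hcon
        exact hω hcon
      exact ⟨fun _ => hm, fun _ => h5⟩
    · have h3 : μ {ω | m ∈ ({m | ω m = true} : Set ℕ)} = 0 := by
        rw [hμ.prob m]
        unfold ret
        rw [if_neg hm]
        simp
      rw [measure_eq_zero_iff_ae_notMem] at h3
      filter_upwards [h3] with ω hω
      exact ⟨fun h => absurd h hω, fun h => absurd h hm⟩
  obtain ⟨ω, hω1, hω2⟩ := (h1.and h2).exists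
  rw [← hω1]
  congr 1
  ext m
  exact hω2 m

theorem prod_thin (p : ℝ) (n Y : ℕ) :
    ∏ m ∈ Ioc n (n + Y), (1 - ret p 0 m) =
      (1 - min 1 p) ^ (Nat.primeCounting (n + Y) - Nat.primeCounting n) := by
  classical
  have h0 : Nat.primeCounting (n + Y) - Nat.primeCounting n = ((Ioc n (n + Y)).filter Nat.Prime).card := by
    have h1 : ∀ N, Nat.primeCounting N = ((Icc 0 N).filter Nat.Prime).card := by
      intro N
      unfold Nat.primeCounting Nat.primeCounting'
      rw [Nat.count_eq_card_filter_range]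
      congr 2
      ext x
      simp only [Finset.mem_range, Finset.mem_Icc]
      omega
    have h2 : (Icc 0 (n + Y)).filter Nat.Prime =
        (Icc 0 n).filter Nat.Prime ∪ (Ioc n (n + Y)).filter Nat.Prime := by
      ext x
      simp only [Finset.mem_union, Finset.mem_filter, Finset.mem_Icc, Finset.mem_Ioc]
      constructor
      · rintro ⟨h3, h4⟩
        by_cases h5 : x ≤ n
        · exact Or.inl ⟨⟨h3.1, h5⟩, h4⟩
        · exact Or.inr ⟨⟨by omega, h3.2⟩, h4⟩
      · rintro (⟨h3, h4⟩ | ⟨h3, h4⟩)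
        · exact ⟨⟨h3.1, by omega⟩, h4⟩
        · exact ⟨⟨by omega, h3.2⟩, h4⟩
    have h3 : Disjoint ((Icc 0 n).filter Nat.Prime) ((Ioc n (n + Y)).filter Nat.Prime) := by
      rw [Finset.disjoint_left]
      intro x hx hx'
      rw [Finset.mem_filter, Finset.mem_Icc] at hx
      rw [Finset.mem_filter, Finset.mem_Ioc] at hx'
      omega
    rw [h1, h1, h2, Finset.card_union_of_disjoint h3]
    omega
  rw [h0]
  have h2 : ∀ m ∈ Ioc n (n + Y), (1 - ret p 0 m) = if m.Prime then (1 - min 1 p) else 1 := by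
    intro m _
    unfold ret
    split_ifs <;> simp
  rw [Finset.prod_congr rfl h2, Finset.prod_ite, Finset.prod_const, Finset.prod_const_one, mul_one]

theorem scale_zero {p p' : ℝ} {k : ℕ} (hp : 0 < p) (hp1 : p ≤ 1) (hp' : 0 < p') (hp1' : p' ≤ 1)
    (h : (1 - p') ^ k ≤ 1 - p) : Lam (lpw 2) (ret p' 0) ≤ k * Lam (lpw 2) (ret p 0) := by
  have hk : 0 < k := by
    rw [Nat.pos_iff_ne_zero]
    rintro rfl
    rw [pow_zero] at h
    linarith
  apply Lam_scale (scale_lpw (by norm_num)) (ret_le p 0) (ret_nonneg hp'.le 0) (ret_le p' 0) hk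
  filter_upwards [eventually_ge_atTop 3] with m hm
  by_cases hmp : m.Prime
  · rw [ret_eq hp1 le_rfl hm hmp, ret_eq hp1' le_rfl hm hmp, Real.rpow_zero, div_one, div_one]
    exact h
  · unfold ret
    rw [if_neg hmp, if_neg hmp]
    simp

theorem scale_pos {p p' lam : ℝ} {k : ℕ} (hp : 0 < p) (hp1 : p ≤ 1) (hp' : 0 < p') (hp1' : p' ≤ 1)
    (hlam : 0 < lam) (h : p < k * p') :
    Lam (lpw (2 + lam)) (ret p' lam) ≤ k * Lam (lpw (2 + lam)) (ret p lam) := by
  have hk : 0 < k := by
    rw [Nat.pos_iff_ne_zero]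
    rintro rfl
    rw [Nat.cast_zero, zero_mul] at h
    linarith
  have hkr : (0 : ℝ) < k := by exact_mod_cast hk
  apply Lam_scale (scale_lpw (by linarith)) (ret_le p lam) (ret_nonneg hp'.le lam) (ret_le p' lam) hk
  have hlim : Tendsto (fun n : ℕ => p / (Real.log n) ^ lam) atTop (𝓝 0) :=
    ((tendsto_rpow_atTop hlam).comp tlog).const_div_atTop p
  have h1 : 0 < 1 - p / (k * p') := by
    rw [sub_pos, div_lt_one (by positivity)]
    exact h
  filter_upwards [eventually_ge_atTop 3, hlim.eventually_lt_const h1, hlim.eventually_lt_const one_pos]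
    with m hm e1 e2
  by_cases hmp : m.Prime
  · rw [ret_eq hp1 hlam.le hm hmp, ret_eq hp1' hlam.le hm hmp]
    obtain ⟨y, hy⟩ : ∃ y, y = (Real.log m) ^ lam := ⟨_, rfl⟩
    have hy0 : 1 ≤ y := by rw [hy]; exact Real.one_le_rpow (log_ge_one hm) hlam.le
    rw [← hy] at e1 e2 ⊢
    have h2 : (1 - p' / y) ^ k ≤ Real.exp (-(k * (p' / y))) := by
      have h3 : 1 - p' / y ≤ Real.exp (-(p' / y)) := by
        have := Real.add_one_le_exp (-(p' / y))
        linarith
      have h4 : 0 ≤ 1 - p' / y := by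
        have : p' / y ≤ 1 := by
          rw [div_le_one (by linarith)]
          linarith
        linarith
      refine (pow_le_pow_left₀ h4 h3 k).trans (le_of_eq ?_)
      rw [← Real.exp_nat_mul]
      congr 1
      ring
    refine h2.trans (le_trans ?_ (exp_le_one_sub e2))
    apply Real.exp_le_exp.2
    apply neg_le_neg
    rw [div_le_iff₀ (by linarith)]
    have h5 : p / (k * p') ≤ 1 - p / y := by linarith
    rw [div_le_iff₀ (by positivity)] at h5
    have hy1 : 0 < y := by linarith
    rw [div_le_iff₀ hy1]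
    calc p ≤ (1 - p / y) * (k * p') := h5
      _ = k * (p' / y) * (1 - p / y) * y := by field_simp
  · unfold ret
    rw [if_neg hmp, if_neg hmp]
    simp

end Pool.Agent.Q110.RS
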